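import Mathlib
import Pool.Agent.Lib.MP_ec2ab1_pr_h25b.Rot

set_option autoImplicit false

/-!
# Exact identities for the linear test function

`KK s x` is the density of `N(x, 1)` with respect to `GG = N(0, 2)`; `vd P s = ∫ KK s x dP(x)` is the
density of `V = P * N(0,1)` with respect to `GG`; `UU P` is the law of `X + Y`.
-/

namespace Pool.Agent.Lib.MP_ec2ab1_pr_h45

open MeasureTheory ProbabilityTheory
open scoped NNReal ENNReal
open Pool.Agent.Lib.MP_ec2ab1_pr_h25b (ga et GG)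

/-- density of `N(x, 1)` with respect to `N(0, 2)` -/
noncomputable def KK (s x : ℝ) : ℝ := Real.sqrt 2 * Real.exp (-s ^ 2 / 4 + s * x - x ^ 2 / 2)

theorem KK_pos (s x : ℝ) : 0 < KK s x := by
  unfold KK
  positivity

theorem continuous_KK : Continuous fun p : ℝ × ℝ => KK p.1 p.2 := by
  unfold KK
  fun_prop

theorem measurable_KK : Measurable fun p : ℝ × ℝ => KK p.1 p.2 := continuous_KK.measurable

theorem KK_le_left (s x : ℝ) : KK s x ≤ Real.sqrt 2 * Real.exp (s ^ 2 / 4) := by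
  unfold KK
  refine mul_le_mul_of_nonneg_left (Real.exp_le_exp.2 ?_) (Real.sqrt_nonneg 2)
  nlinarith [sq_nonneg (s - x)]

theorem KK_le_right (s x : ℝ) : KK s x ≤ Real.sqrt 2 * Real.exp (x ^ 2 / 2) := by
  unfold KK
  refine mul_le_mul_of_nonneg_left (Real.exp_le_exp.2 ?_) (Real.sqrt_nonneg 2)
  nlinarith [sq_nonneg (s - 2 * x)]

/-- the pointwise identity of densities -/
theorem pdf_mul_KK (s x : ℝ) :
    gaussianPDFReal 0 2 s * KK s x = gaussianPDFReal x 1 s := by
  unfold gaussianPDFReal KK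
  have h1 : Real.sqrt (2 * Real.pi * ((2 : ℝ≥0) : ℝ)) =
      Real.sqrt 2 * Real.sqrt (2 * Real.pi * ((1 : ℝ≥0) : ℝ)) := by
    rw [← Real.sqrt_mul (by norm_num)]
    congr 1
    push_cast
    ring
  rw [h1, mul_inv]
  have h2 : Real.exp (-(s - 0) ^ 2 / (2 * ((2 : ℝ≥0) : ℝ))) *
      Real.exp (-s ^ 2 / 4 + s * x - x ^ 2 / 2) =
      Real.exp (-(s - x) ^ 2 / (2 * ((1 : ℝ≥0) : ℝ))) := by
    rw [← Real.exp_add]
    congr 1
    push_cast
    ring
  have h3 : Real.sqrt 2 ≠ 0 := by positivity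
  calc (Real.sqrt 2)⁻¹ * (Real.sqrt (2 * Real.pi * ((1 : ℝ≥0) : ℝ)))⁻¹ *
        Real.exp (-(s - 0) ^ 2 / (2 * ((2 : ℝ≥0) : ℝ))) *
        (Real.sqrt 2 * Real.exp (-s ^ 2 / 4 + s * x - x ^ 2 / 2)) =
      (Real.sqrt 2)⁻¹ * Real.sqrt 2 * (Real.sqrt (2 * Real.pi * ((1 : ℝ≥0) : ℝ)))⁻¹ *
        (Real.exp (-(s - 0) ^ 2 / (2 * ((2 : ℝ≥0) : ℝ))) *
          Real.exp (-s ^ 2 / 4 + s * x - x ^ 2 / 2)) := by ring
    _ = _ := by rw [h2, inv_mul_cancel₀ h3, one_mul]

/-- `(a)` -/
theorem withDensity_KK (x : ℝ) :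
    gaussianReal x 1 = GG.withDensity fun s => ENNReal.ofReal (KK s x) := by
  have hm : Measurable fun s => ENNReal.ofReal (KK s x) :=
    (measurable_KK.comp (measurable_id.prodMk measurable_const)).ennreal_ofReal
  rw [gaussianReal_of_var_ne_zero _ one_ne_zero, GG, gaussianReal_of_var_ne_zero _ two_ne_zero,
    ← withDensity_mul _ (measurable_gaussianPDF 0 2) hm]
  congr 1
  funext s
  rw [Pi.mul_apply, gaussianPDF, gaussianPDF, ← ENNReal.ofReal_mul (gaussianPDFReal_nonneg _ _ _),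
    pdf_mul_KK]

/-- the law of `X + Z` -/
noncomputable abbrev VV (P : Measure ℝ) : Measure ℝ := (P.prod ga).map fun p : ℝ × ℝ => p.1 + p.2

/-- the law of `X + Y` -/
noncomputable abbrev UU (P : Measure ℝ) : Measure ℝ := (P.prod P).map fun p : ℝ × ℝ => p.1 + p.2

/-- the density of `X + Z` with respect to `N(0, 2)` -/
noncomputable def vd (P : Measure ℝ) (s : ℝ) : ℝ := ∫ x, KK s x ∂P

variable {P : Measure ℝ} [IsProbabilityMeasure P]

theorem integrable_KK_left (s : ℝ) : Integrable (fun x => KK s x) P := by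
  refine Integrable.of_bound ?_ (Real.sqrt 2 * Real.exp (s ^ 2 / 4))
    (Filter.Eventually.of_forall fun x => ?_)
  · exact (measurable_KK.comp (measurable_const.prodMk measurable_id)).aestronglyMeasurable
  · rw [Real.norm_eq_abs, abs_of_pos (KK_pos s x)]
    exact KK_le_left s x

theorem integrable_KK_right {Q : Measure ℝ} [IsFiniteMeasure Q] (x : ℝ) :
    Integrable (fun s => KK s x) Q := by
  refine Integrable.of_bound ?_ (Real.sqrt 2 * Real.exp (x ^ 2 / 2))
    (Filter.Eventually.of_forall fun s => ?_)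
  · exact (measurable_KK.comp (measurable_id.prodMk measurable_const)).aestronglyMeasurable
  · rw [Real.norm_eq_abs, abs_of_pos (KK_pos s x)]
    exact KK_le_right s x

theorem measurable_vd : Measurable (vd P) := by
  unfold vd
  exact (measurable_KK.stronglyMeasurable.integral_prod_right').measurable

omit [IsProbabilityMeasure P] in
theorem vd_nonneg (s : ℝ) : 0 ≤ vd P s := integral_nonneg fun x => (KK_pos s x).le

theorem ofReal_vd (s : ℝ) : ENNReal.ofReal (vd P s) = ∫⁻ x, ENNReal.ofReal (KK s x) ∂P := by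
  unfold vd
  rw [ofReal_integral_eq_lintegral_ofReal (integrable_KK_left s)
    (Filter.Eventually.of_forall fun x => (KK_pos s x).le)]

theorem measurable_ofReal_KK : Measurable fun p : ℝ × ℝ => ENNReal.ofReal (KK p.1 p.2) :=
  measurable_KK.ennreal_ofReal

/-- Tonelli for the law of `X + Z` -/
theorem lintegral_VV {f : ℝ → ℝ≥0∞} (hf : Measurable f) :
    ∫⁻ s, f s ∂(VV P) = ∫⁻ s, ENNReal.ofReal (vd P s) * f s ∂GG := by
  have h1 : Measurable fun p : ℝ × ℝ => f (p.1 + p.2) := hf.comp (measurable_fst.add measurable_snd)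
  rw [VV, lintegral_map hf (by fun_prop : Measurable fun p : ℝ × ℝ => p.1 + p.2),
    lintegral_prod _ h1.aemeasurable]
  have h2 : ∀ x : ℝ, ∫⁻ z, f (x + z) ∂ga = ∫⁻ s, ENNReal.ofReal (KK s x) * f s ∂GG := by
    intro x
    have h3 : (ga).map (fun z => x + z) = gaussianReal x 1 := by
      rw [gaussianReal_map_const_add, zero_add]
    have h4 : ∫⁻ z, f (x + z) ∂ga = ∫⁻ s, f s ∂((ga).map (fun z => x + z)) :=
      (lintegral_map hf (measurable_const.add measurable_id)).symm
    have h5 : Measurable fun s => ENNReal.ofReal (KK s x) :=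
      (measurable_KK.comp (measurable_id.prodMk measurable_const)).ennreal_ofReal
    rw [h4, h3, withDensity_KK, lintegral_withDensity_eq_lintegral_mul _ h5 hf]
    rfl
  simp only [h2]
  rw [lintegral_lintegral_swap]
  · refine lintegral_congr fun s => ?_
    rw [ofReal_vd, lintegral_mul_const]
    exact (measurable_KK.comp (measurable_const.prodMk measurable_id)).ennreal_ofReal
  · refine Measurable.aemeasurable ?_
    have h6 : Measurable fun p : ℝ × ℝ => ENNReal.ofReal (KK p.2 p.1) * f p.2 :=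
      (measurable_ofReal_KK.comp measurable_swap).mul (hf.comp measurable_snd)
    exact h6

theorem VV_eq : VV P = GG.withDensity fun s => ENNReal.ofReal (vd P s) := by
  refine Measure.ext fun A hA => ?_
  rw [← lintegral_indicator_one hA, lintegral_VV (measurable_one.indicator hA),
    withDensity_apply _ hA, ← lintegral_indicator hA]
  refine lintegral_congr fun s => ?_
  by_cases hs : s ∈ A
  · simp [hs]
  · simp [hs]

/-- the pointwise identity for `(b)` -/
theorem lintegral_KK_mul_KK (x a b : ℝ) :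
    ∫⁻ d, ENNReal.ofReal (KK (x + d) a * KK (x - d) b) ∂ga = ENNReal.ofReal (KK (a + b) x) := by
  rw [ga, gaussianReal_of_var_ne_zero _ one_ne_zero,
    lintegral_withDensity_eq_lintegral_mul _ (measurable_gaussianPDF 0 1)]
  · have h1 : ∀ d : ℝ, (gaussianPDF 0 1 * fun d => ENNReal.ofReal (KK (x + d) a * KK (x - d) b)) d =
        ENNReal.ofReal (KK (a + b) x) * gaussianPDF ((a - b) / 2) (1 / 2) d := by
      intro d
      rw [Pi.mul_apply, gaussianPDF, gaussianPDF, ← ENNReal.ofReal_mul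
        (gaussianPDFReal_nonneg _ _ _), ← ENNReal.ofReal_mul (KK_pos _ _).le]
      congr 1
      unfold gaussianPDFReal KK
      have h2 : Real.sqrt (2 * Real.pi * ((1 : ℝ≥0) : ℝ)) = Real.sqrt 2 * Real.sqrt Real.pi := by
        rw [← Real.sqrt_mul (by norm_num)]
        congr 1
        push_cast
        ring
      have h3 : Real.sqrt (2 * Real.pi * ((1 / 2 : ℝ≥0) : ℝ)) = Real.sqrt Real.pi := by
        congr 1
        push_cast
        ring
      rw [h2, h3, mul_inv]
      have h4 : Real.exp (-(d - 0) ^ 2 / (2 * ((1 : ℝ≥0) : ℝ))) *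
          (Real.exp (-(x + d) ^ 2 / 4 + (x + d) * a - a ^ 2 / 2) *
            Real.exp (-(x - d) ^ 2 / 4 + (x - d) * b - b ^ 2 / 2)) =
          Real.exp (-(a + b) ^ 2 / 4 + (a + b) * x - x ^ 2 / 2) *
            Real.exp (-(d - (a - b) / 2) ^ 2 / (2 * ((1 / 2 : ℝ≥0) : ℝ))) := by
        rw [← Real.exp_add, ← Real.exp_add, ← Real.exp_add]
        congr 1
        push_cast
        ring
      have h5 : Real.sqrt 2 ≠ 0 := by positivity
      calc (Real.sqrt 2)⁻¹ * (Real.sqrt Real.pi)⁻¹ * Real.exp (-(d - 0) ^ 2 / (2 * ((1 : ℝ≥0) : ℝ))) *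
            (Real.sqrt 2 * Real.exp (-(x + d) ^ 2 / 4 + (x + d) * a - a ^ 2 / 2) *
              (Real.sqrt 2 * Real.exp (-(x - d) ^ 2 / 4 + (x - d) * b - b ^ 2 / 2))) =
          ((Real.sqrt 2)⁻¹ * Real.sqrt 2) * Real.sqrt 2 * (Real.sqrt Real.pi)⁻¹ *
            (Real.exp (-(d - 0) ^ 2 / (2 * ((1 : ℝ≥0) : ℝ))) *
            (Real.exp (-(x + d) ^ 2 / 4 + (x + d) * a - a ^ 2 / 2) *
              Real.exp (-(x - d) ^ 2 / 4 + (x - d) * b - b ^ 2 / 2))) := by ring
        _ = Real.sqrt 2 * Real.exp (-(a + b) ^ 2 / 4 + (a + b) * x - x ^ 2 / 2) *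
            ((Real.sqrt Real.pi)⁻¹ *
              Real.exp (-(d - (a - b) / 2) ^ 2 / (2 * ((1 / 2 : ℝ≥0) : ℝ)))) := by
          rw [h4, inv_mul_cancel₀ h5]
          ring
    simp only [h1]
    rw [lintegral_const_mul _ (measurable_gaussianPDF _ _),
      lintegral_gaussianPDF_eq_one _ (by norm_num), mul_one]
  · have h6 : Continuous fun d : ℝ => KK (x + d) a * KK (x - d) b := by
      unfold KK
      fun_prop
    exact h6.measurable.ennreal_ofReal

/-- `(b)`, for every probability measure -/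
theorem lintegral_KK_UU (x : ℝ) :
    ∫⁻ s, ENNReal.ofReal (KK s x) ∂(UU P) =
      ∫⁻ d, ENNReal.ofReal (vd P (x + d)) * ENNReal.ofReal (vd P (x - d)) ∂ga := by
  have hm1 : Measurable fun s => ENNReal.ofReal (KK s x) :=
    (measurable_KK.comp (measurable_id.prodMk measurable_const)).ennreal_ofReal
  rw [UU, lintegral_map hm1 (by fun_prop : Measurable fun p : ℝ × ℝ => p.1 + p.2)]
  have hc : Continuous fun q : (ℝ × ℝ) × ℝ => KK (x + q.2) q.1.1 * KK (x - q.2) q.1.2 := by
    unfold KK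
    fun_prop
  have h1 : ∀ d : ℝ, ENNReal.ofReal (vd P (x + d)) * ENNReal.ofReal (vd P (x - d)) =
      ∫⁻ a, ∫⁻ b, ENNReal.ofReal (KK (x + d) a * KK (x - d) b) ∂P ∂P := by
    intro d
    have hk : ∀ s : ℝ, Measurable fun y => ENNReal.ofReal (KK s y) := fun s =>
      (measurable_KK.comp (measurable_const.prodMk measurable_id)).ennreal_ofReal
    rw [ofReal_vd, ofReal_vd, ← lintegral_mul_const _ (hk (x + d))]
    refine lintegral_congr fun a => ?_
    rw [← lintegral_const_mul _ (hk (x - d))]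
    refine lintegral_congr fun b => ?_
    rw [ENNReal.ofReal_mul (KK_pos _ _).le]
  simp only [h1]
  have h2 : ∀ d : ℝ, ∫⁻ a, ∫⁻ b, ENNReal.ofReal (KK (x + d) a * KK (x - d) b) ∂P ∂P =
      ∫⁻ q : ℝ × ℝ, ENNReal.ofReal (KK (x + d) q.1 * KK (x - d) q.2) ∂(P.prod P) := by
    intro d
    rw [lintegral_prod]
    exact (hc.comp (continuous_id.prodMk continuous_const :
      Continuous fun q : ℝ × ℝ => (q, d))).measurable.ennreal_ofReal.aemeasurable
  simp only [h2]
  rw [lintegral_lintegral_swap]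
  · have h3 : ∀ q : ℝ × ℝ, ∫⁻ d, ENNReal.ofReal (KK (x + d) q.1 * KK (x - d) q.2) ∂ga =
        ENNReal.ofReal (KK (q.1 + q.2) x) := fun q => lintegral_KK_mul_KK x q.1 q.2
    simp only [h3]
  · have h4 : Measurable fun q : ℝ × (ℝ × ℝ) =>
        ENNReal.ofReal (KK (x + q.1) q.2.1 * KK (x - q.1) q.2.2) :=
      (hc.comp (continuous_snd.prodMk continuous_fst :
        Continuous fun q : ℝ × (ℝ × ℝ) => (q.2, q.1))).measurable.ennreal_ofReal
    exact h4.aemeasurable

end Pool.Agent.Lib.MP_ec2ab1_pr_h45
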