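import Mathlib
import Pool.Agent.Lib.MP_ec2ab1_pr_h45.Ident

set_option autoImplicit false

/-!
# The expectation of `vd P` under the law of `X + Y`

`E_U v = 1 + 2 be + c` with `be = ∫ b ^ 2 dG`, `b = v - 1` and
`c = E b (X + Z) b (X - Z)`, and the trivial bound `c ≥ - ∫ v b ^ 2 dG`, for bounded `v`.
-/

namespace Pool.Agent.Lib.MP_ec2ab1_pr_h45

open MeasureTheory ProbabilityTheory
open scoped NNReal ENNReal
open Pool.Agent.Lib.MP_ec2ab1_pr_h25b (ga et GG ga_symm)

variable {P : Measure ℝ} [IsProbabilityMeasure P]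

instance : IsProbabilityMeasure (VV P) :=
  Measure.isProbabilityMeasure_map (by fun_prop)

instance : IsProbabilityMeasure (UU P) :=
  Measure.isProbabilityMeasure_map (by fun_prop)

theorem lintegral_vd : ∫⁻ s, ENNReal.ofReal (vd P s) ∂GG = 1 := by
  have h := lintegral_VV (P := P) (f := fun _ => 1) measurable_const
  simp only [mul_one, lintegral_const, measure_univ] at h
  exact h.symm

/-- for every probability measure -/
theorem lintegral_vd_UU :
    ∫⁻ s, ENNReal.ofReal (vd P s) ∂(UU P) =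
      ∫⁻ x, ∫⁻ d, ENNReal.ofReal (vd P (x + d)) * ENNReal.ofReal (vd P (x - d)) ∂ga ∂P := by
  have h1 : ∀ x : ℝ, ∫⁻ d, ENNReal.ofReal (vd P (x + d)) * ENNReal.ofReal (vd P (x - d)) ∂ga =
      ∫⁻ s, ENNReal.ofReal (KK s x) ∂(UU P) := fun x => (lintegral_KK_UU x).symm
  simp only [h1]
  rw [lintegral_lintegral_swap]
  · exact lintegral_congr fun s => ofReal_vd s
  · exact (measurable_ofReal_KK.comp measurable_swap).aemeasurable

theorem integrable_vd_GG : Integrable (vd P) GG := by
  refine ⟨measurable_vd.aestronglyMeasurable, ?_⟩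
  rw [hasFiniteIntegral_iff_ofReal (Filter.Eventually.of_forall fun s => vd_nonneg s),
    lintegral_vd]
  exact ENNReal.one_lt_top

theorem integral_vd_GG : ∫ s, vd P s ∂GG = 1 := by
  rw [integral_eq_lintegral_of_nonneg_ae (Filter.Eventually.of_forall fun s => vd_nonneg s)
    measurable_vd.aestronglyMeasurable, lintegral_vd]
  simp

/-- change of measure -/
theorem integral_VV (f : ℝ → ℝ) : ∫ s, f s ∂(VV P) = ∫ s, vd P s * f s ∂GG := by
  rw [VV_eq, integral_withDensity_eq_integral_toReal_smul measurable_vd.ennreal_ofReal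
    (Filter.Eventually.of_forall fun s => ENNReal.ofReal_lt_top)]
  refine integral_congr_ae (Filter.Eventually.of_forall fun s => ?_)
  simp only [smul_eq_mul]
  rw [ENNReal.toReal_ofReal (vd_nonneg s)]

/-- the centered density -/
noncomputable def bd (P : Measure ℝ) (s : ℝ) : ℝ := vd P s - 1

theorem measurable_bd : Measurable (bd P) := measurable_vd.sub measurable_const

theorem integral_bd_GG : ∫ s, bd P s ∂GG = 0 := by
  unfold bd
  rw [integral_sub integrable_vd_GG (integrable_const _), integral_vd_GG]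
  simp

/-- `be = ∫ (v - 1) ^ 2 dG` -/
noncomputable def be (P : Measure ℝ) : ℝ := ∫ s, bd P s ^ 2 ∂GG

/-- the correlation term -/
noncomputable def cc (P : Measure ℝ) : ℝ :=
  ∫ p : ℝ × ℝ, bd P (p.1 + p.2) * bd P (p.1 - p.2) ∂(P.prod ga)

variable {M : ℝ}

omit [IsProbabilityMeasure P] in
theorem abs_bd_le (hM : ∀ s, vd P s ≤ M) (s : ℝ) : |bd P s| ≤ |M| + 1 := by
  unfold bd
  have h1 := vd_nonneg (P := P) s
  have h2 := hM s
  have h3 := le_abs_self M
  rw [abs_le]
  constructor <;> linarith [abs_nonneg M]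

theorem integrable_bd_pow (hM : ∀ s, vd P s ≤ M) (n : ℕ) {Q : Measure ℝ} [IsFiniteMeasure Q] :
    Integrable (fun s => bd P s ^ n) Q := by
  refine Integrable.of_bound (measurable_bd.pow_const n).aestronglyMeasurable ((|M| + 1) ^ n)
    (Filter.Eventually.of_forall fun s => ?_)
  rw [norm_pow, Real.norm_eq_abs]
  exact pow_le_pow_left₀ (abs_nonneg _) (abs_bd_le hM s) n

theorem integral_bd_VV (hM : ∀ s, vd P s ≤ M) : ∫ s, bd P s ∂(VV P) = be P := by
  rw [integral_VV]
  unfold be
  have h1 : ∀ s, vd P s * bd P s = bd P s ^ 2 + bd P s := fun s => by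
    unfold bd
    ring
  simp only [h1]
  have h2 : Integrable (fun s => bd P s) GG := by
    have := integrable_bd_pow (P := P) hM 1 (Q := GG)
    simpa using this
  rw [integral_add (integrable_bd_pow hM 2) h2, integral_bd_GG, add_zero]

theorem measurable_bd_add : Measurable fun p : ℝ × ℝ => bd P (p.1 + p.2) :=
  measurable_bd.comp (measurable_fst.add measurable_snd)

theorem measurable_bd_sub : Measurable fun p : ℝ × ℝ => bd P (p.1 - p.2) :=
  measurable_bd.comp (measurable_fst.sub measurable_snd)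

/-- the reflection of the normal variable -/
theorem mp_reflect : MeasurePreserving (fun p : ℝ × ℝ => (p.1, -p.2)) (P.prod ga) (P.prod ga) := by
  have h1 : MeasurePreserving (fun x : ℝ => -x) ga ga := ⟨measurable_neg, ga_symm⟩
  exact (MeasurePreserving.id P).prod h1

omit [IsProbabilityMeasure P] in
theorem integral_add_eq (f : ℝ → ℝ) (hf : Measurable f) :
    ∫ p : ℝ × ℝ, f (p.1 + p.2) ∂(P.prod ga) = ∫ s, f s ∂(VV P) := by
  rw [VV, integral_map (by fun_prop) hf.aestronglyMeasurable]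

theorem integral_sub_eq (f : ℝ → ℝ) (hf : Measurable f) :
    ∫ p : ℝ × ℝ, f (p.1 - p.2) ∂(P.prod ga) = ∫ s, f s ∂(VV P) := by
  rw [← integral_add_eq f hf]
  have h := (mp_reflect (P := P)).integral_comp'
    (f := MeasurableEquiv.prodCongr (MeasurableEquiv.refl ℝ) (MeasurableEquiv.neg ℝ))
    (fun p : ℝ × ℝ => f (p.1 + p.2))
  rw [← h]
  rfl

/-- `(c)` as an integral over the product -/
theorem integral_vd_UU_prod :
    ∫ s, vd P s ∂(UU P) = ∫ p : ℝ × ℝ, vd P (p.1 + p.2) * vd P (p.1 - p.2) ∂(P.prod ga) := by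
  have hmm : Measurable fun p : ℝ × ℝ => vd P (p.1 + p.2) * vd P (p.1 - p.2) :=
    (measurable_vd.comp (measurable_fst.add measurable_snd)).mul
      (measurable_vd.comp (measurable_fst.sub measurable_snd))
  rw [integral_eq_lintegral_of_nonneg_ae (Filter.Eventually.of_forall fun s => vd_nonneg s)
    measurable_vd.aestronglyMeasurable,
    integral_eq_lintegral_of_nonneg_ae (Filter.Eventually.of_forall fun p =>
      mul_nonneg (vd_nonneg _) (vd_nonneg _)) hmm.aestronglyMeasurable, lintegral_vd_UU,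
    lintegral_prod _ hmm.ennreal_ofReal.aemeasurable]
  congr 1
  refine lintegral_congr fun x => lintegral_congr fun d => ?_
  rw [ENNReal.ofReal_mul (vd_nonneg _)]

/-- `(c)` -/
theorem integral_vd_UU (hM : ∀ s, vd P s ≤ M) :
    ∫ s, vd P s ∂(UU P) = 1 + 2 * be P + cc P := by
  rw [integral_vd_UU_prod]
  unfold cc
  have h1 : ∀ p : ℝ × ℝ, vd P (p.1 + p.2) * vd P (p.1 - p.2) =
      (1 + (bd P (p.1 + p.2) + bd P (p.1 - p.2))) + bd P (p.1 + p.2) * bd P (p.1 - p.2) := by
    intro p
    unfold bd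
    ring
  simp only [h1]
  have i1 : Integrable (fun p : ℝ × ℝ => bd P (p.1 + p.2)) (P.prod ga) := by
    refine Integrable.of_bound measurable_bd_add.aestronglyMeasurable (|M| + 1)
      (Filter.Eventually.of_forall fun p => ?_)
    rw [Real.norm_eq_abs]
    exact abs_bd_le hM _
  have i2 : Integrable (fun p : ℝ × ℝ => bd P (p.1 - p.2)) (P.prod ga) := by
    refine Integrable.of_bound measurable_bd_sub.aestronglyMeasurable (|M| + 1)
      (Filter.Eventually.of_forall fun p => ?_)
    rw [Real.norm_eq_abs]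
    exact abs_bd_le hM _
  have i3 : Integrable (fun p : ℝ × ℝ => bd P (p.1 + p.2) * bd P (p.1 - p.2)) (P.prod ga) := by
    refine Integrable.of_bound (measurable_bd_add.mul measurable_bd_sub).aestronglyMeasurable
      ((|M| + 1) * (|M| + 1)) (Filter.Eventually.of_forall fun p => ?_)
    rw [norm_mul, Real.norm_eq_abs, Real.norm_eq_abs]
    exact mul_le_mul (abs_bd_le hM _) (abs_bd_le hM _) (abs_nonneg _) (by positivity)
  have e1 : ∫ p : ℝ × ℝ, bd P (p.1 + p.2) ∂(P.prod ga) = be P := by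
    rw [integral_add_eq _ measurable_bd, integral_bd_VV hM]
  have e2 : ∫ p : ℝ × ℝ, bd P (p.1 - p.2) ∂(P.prod ga) = be P := by
    rw [integral_sub_eq _ measurable_bd, integral_bd_VV hM]
  have i4 : Integrable (fun p : ℝ × ℝ => bd P (p.1 + p.2) + bd P (p.1 - p.2)) (P.prod ga) :=
    i1.add i2
  have i5 : Integrable (fun p : ℝ × ℝ => 1 + (bd P (p.1 + p.2) + bd P (p.1 - p.2)))
      (P.prod ga) := (integrable_const 1).add i4
  rw [integral_add i5 i3, integral_add (integrable_const 1) i4, integral_add i1 i2, e1, e2]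
  simp
  ring

/-- the trivial bound -/
theorem cc_ge (hM : ∀ s, vd P s ≤ M) : - ∫ s, vd P s * bd P s ^ 2 ∂GG ≤ cc P := by
  unfold cc
  have hs : Measurable fun s => bd P s ^ 2 := measurable_bd.pow_const 2
  have e1 : ∫ p : ℝ × ℝ, bd P (p.1 + p.2) ^ 2 ∂(P.prod ga) = ∫ s, vd P s * bd P s ^ 2 ∂GG := by
    rw [integral_add_eq _ hs, integral_VV]
  have e2 : ∫ p : ℝ × ℝ, bd P (p.1 - p.2) ^ 2 ∂(P.prod ga) = ∫ s, vd P s * bd P s ^ 2 ∂GG := by
    rw [integral_sub_eq _ hs, integral_VV]
  have hb : ∀ s, |bd P s ^ 2| ≤ (|M| + 1) ^ 2 := fun s => by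
    rw [abs_pow]
    exact pow_le_pow_left₀ (abs_nonneg _) (abs_bd_le hM s) 2
  have i1 : Integrable (fun p : ℝ × ℝ => bd P (p.1 + p.2) ^ 2) (P.prod ga) := by
    refine Integrable.of_bound (measurable_bd_add.pow_const 2).aestronglyMeasurable ((|M| + 1) ^ 2)
      (Filter.Eventually.of_forall fun p => ?_)
    rw [Real.norm_eq_abs]
    exact hb _
  have i2 : Integrable (fun p : ℝ × ℝ => bd P (p.1 - p.2) ^ 2) (P.prod ga) := by
    refine Integrable.of_bound (measurable_bd_sub.pow_const 2).aestronglyMeasurable ((|M| + 1) ^ 2)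
      (Filter.Eventually.of_forall fun p => ?_)
    rw [Real.norm_eq_abs]
    exact hb _
  have i3 : Integrable (fun p : ℝ × ℝ => bd P (p.1 + p.2) * bd P (p.1 - p.2)) (P.prod ga) := by
    refine Integrable.of_bound (measurable_bd_add.mul measurable_bd_sub).aestronglyMeasurable
      ((|M| + 1) * (|M| + 1)) (Filter.Eventually.of_forall fun p => ?_)
    rw [norm_mul, Real.norm_eq_abs, Real.norm_eq_abs]
    exact mul_le_mul (abs_bd_le hM _) (abs_bd_le hM _) (abs_nonneg _) (by positivity)
  have h3 : ∫ p : ℝ × ℝ, -((1 / 2) * (bd P (p.1 + p.2) ^ 2 + bd P (p.1 - p.2) ^ 2)) ∂(P.prod ga) ≤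
      ∫ p : ℝ × ℝ, bd P (p.1 + p.2) * bd P (p.1 - p.2) ∂(P.prod ga) := by
    refine integral_mono ((i1.add i2).const_mul _).neg i3 fun p => ?_
    simp only
    nlinarith [sq_nonneg (bd P (p.1 + p.2) + bd P (p.1 - p.2))]
  rw [integral_neg, integral_const_mul, integral_add i1 i2, e1, e2] at h3
  linarith

end Pool.Agent.Lib.MP_ec2ab1_pr_h45
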