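import Mathlib
import Pool.Agent.Lib.MP_ec2ab1_pr_h45.IdentC

set_option autoImplicit false

/-!
# Moments of Gaussian laws and of the law of `X + Y`

`mo Q k = ∫ s ^ k dQ`; `ev l` is the polynomial with coefficient list `l`, and `mev Q l 0` its
integral.
-/

namespace Pool.Agent.Lib.MP_ec2ab1_pr_h45

open MeasureTheory ProbabilityTheory
open scoped NNReal ENNReal
open Pool.Agent.Lib.MP_ec2ab1_pr_h25b (ga et GG ga_symm GG_eq)

/-- the moments of `Q` -/
noncomputable def mo (Q : Measure ℝ) (k : ℕ) : ℝ := ∫ s, s ^ k ∂Q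

/-- all moments of `Q` are finite -/
def AllMo (Q : Measure ℝ) : Prop := ∀ k : ℕ, Integrable (fun s : ℝ => s ^ k) Q

/-- the polynomial with coefficients `l` (constant term first) -/
def ev : List ℝ → ℝ → ℝ
  | [], _ => 0
  | c :: l, s => c + s * ev l s

/-- the integral of `s ^ j * ev l s` -/
noncomputable def mev (Q : Measure ℝ) : List ℝ → ℕ → ℝ
  | [], _ => 0
  | c :: l, j => c * mo Q j + mev Q l (j + 1)

theorem continuous_ev (l : List ℝ) : Continuous (ev l) := by
  induction l with
  | nil => exact continuous_const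
  | cons c l ih =>
    show Continuous fun s => c + s * ev l s
    fun_prop

theorem integrable_ev {Q : Measure ℝ} (h : AllMo Q) (l : List ℝ) :
    ∀ j : ℕ, Integrable (fun s => s ^ j * ev l s) Q := by
  induction l with
  | nil =>
    intro j
    simp only [ev, mul_zero]
    exact integrable_zero _ _ _
  | cons c l ih =>
    intro j
    have h1 : (fun s : ℝ => s ^ j * ev (c :: l) s) =
        fun s => c * s ^ j + s ^ (j + 1) * ev l s := by
      funext s
      show s ^ j * (c + s * ev l s) = _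
      ring
    rw [h1]
    exact ((h j).const_mul c).add (ih (j + 1))

theorem integral_ev' {Q : Measure ℝ} (h : AllMo Q) (l : List ℝ) :
    ∀ j : ℕ, ∫ s, s ^ j * ev l s ∂Q = mev Q l j := by
  induction l with
  | nil =>
    intro j
    simp [ev, mev]
  | cons c l ih =>
    intro j
    have h1 : (fun s : ℝ => s ^ j * ev (c :: l) s) =
        fun s => c * s ^ j + s ^ (j + 1) * ev l s := by
      funext s
      show s ^ j * (c + s * ev l s) = _
      ring
    rw [h1, integral_add ((h j).const_mul c) (integrable_ev h l (j + 1)), integral_const_mul,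
      ih (j + 1)]
    rfl

theorem integral_ev {Q : Measure ℝ} (h : AllMo Q) (l : List ℝ) :
    ∫ s, ev l s ∂Q = mev Q l 0 := by
  rw [← integral_ev' h l 0]
  simp

/-- integral of a polynomial, given by its coefficients -/
theorem integral_of_ev {Q : Measure ℝ} (h : AllMo Q) (l : List ℝ) {f : ℝ → ℝ}
    (hf : ∀ s, f s = ev l s) : ∫ s, f s ∂Q = mev Q l 0 := by
  rw [← integral_ev h l]
  exact integral_congr_ae (Filter.Eventually.of_forall hf)

theorem integrable_of_ev {Q : Measure ℝ} (h : AllMo Q) (l : List ℝ) {f : ℝ → ℝ}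
    (hf : ∀ s, f s = ev l s) : Integrable f Q := by
  have h1 := integrable_ev h l 0
  simp only [pow_zero, one_mul] at h1
  exact h1.congr (Filter.Eventually.of_forall fun s => (hf s).symm)

/-! ### Gaussian moments -/

theorem allMo_gaussian (m : ℝ) (v : ℝ≥0) : AllMo (gaussianReal m v) := by
  intro k
  rcases Nat.eq_zero_or_pos k with rfl | hk
  · simp
  · have h := (memLp_id_gaussianReal (μ := m) (v := v) (k : ℝ≥0)).integrable_norm_rpow
      (by positivity) (by simp)
    refine h.mono' (by fun_prop) (Filter.Eventually.of_forall fun s => ?_)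
    simp [norm_pow]

theorem mo_zero {Q : Measure ℝ} [IsProbabilityMeasure Q] : mo Q 0 = 1 := by
  simp [mo]

theorem mo_ga_one : mo ga 1 = 0 := by
  simp only [mo, pow_one]
  exact integral_id_gaussianReal

theorem mo_ga_add_two (k : ℕ) : mo ga (k + 2) = (k + 1) * mo ga k := by
  have hk : ∀ j : ℕ, mo ga j = ∫ s, gaussianPDFReal 0 1 s * s ^ j := by
    intro j
    unfold mo
    rw [integral_gaussianReal_eq_integral_smul (by norm_num : (1 : ℝ≥0) ≠ 0)]
    rfl
  have hi : ∀ j : ℕ, Integrable (fun s : ℝ => gaussianPDFReal 0 1 s * s ^ j) := by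
    intro j
    have h := allMo_gaussian 0 1 j
    rw [gaussianReal_of_var_ne_zero 0 (by norm_num : (1 : ℝ≥0) ≠ 0),
      integrable_withDensity_iff_integrable_smul' (measurable_gaussianPDF _ _)
      (Filter.Eventually.of_forall fun _ => gaussianPDF_lt_top)] at h
    refine h.congr (Filter.Eventually.of_forall fun s => ?_)
    simp only [toReal_gaussianPDF, smul_eq_mul]
  have hd : ∀ s : ℝ, HasDerivAt (fun s : ℝ => gaussianPDFReal 0 1 s * s ^ (k + 1))
      ((k + 1 : ℝ) * (gaussianPDFReal 0 1 s * s ^ k) - gaussianPDFReal 0 1 s * s ^ (k + 2)) s := by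
    intro s
    have h1 : HasDerivAt (gaussianPDFReal 0 1) (-s * gaussianPDFReal 0 1 s) s := by
      have e : gaussianPDFReal 0 1 = fun x : ℝ => (Real.sqrt (2 * Real.pi * ((1 : ℝ≥0) : ℝ)))⁻¹ *
          Real.exp (-(x - 0) ^ 2 / (2 * ((1 : ℝ≥0) : ℝ))) := rfl
      rw [e]
      have h2 : HasDerivAt (fun x : ℝ => -(x - 0) ^ 2 / (2 * ((1 : ℝ≥0) : ℝ))) (-s) s := by
        have h3 : HasDerivAt (fun x : ℝ => -(x - 0) ^ 2 / (2 * ((1 : ℝ≥0) : ℝ)))
            (-((2 : ℕ) * (s - 0) ^ (2 - 1) * 1) / (2 * ((1 : ℝ≥0) : ℝ))) s :=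
          ((((hasDerivAt_id s).sub_const 0).pow 2).neg).div_const _
        convert h3 using 1
        push_cast
        ring
      refine ((h2.exp).const_mul
        ((Real.sqrt (2 * Real.pi * ((1 : ℝ≥0) : ℝ)))⁻¹)).congr_deriv ?_
      ring
    refine (h1.mul (hasDerivAt_pow (k + 1) s)).congr_deriv ?_
    simp only [Nat.add_sub_cancel]
    push_cast
    ring
  have h0 := integral_eq_zero_of_hasDerivAt_of_integrable hd
    (((hi k).const_mul _).sub (hi (k + 2))) (hi (k + 1))
  rw [integral_sub ((hi k).const_mul _) (hi (k + 2)), integral_const_mul, ← hk, ← hk] at h0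
  linarith

theorem mo_GG (k : ℕ) : mo GG k = Real.sqrt 2 ^ k * mo ga k := by
  unfold mo
  rw [GG_eq, integral_map (by fun_prop) (by fun_prop)]
  simp only [mul_pow]
  rw [integral_const_mul]

theorem mo_GG_one : mo GG 1 = 0 := by
  rw [mo_GG, mo_ga_one, mul_zero]

theorem mo_GG_add_two (k : ℕ) : mo GG (k + 2) = 2 * (k + 1) * mo GG k := by
  rw [mo_GG, mo_GG, mo_ga_add_two, pow_add, Real.sq_sqrt (by norm_num)]
  ring

/-! ### moments of `X + Y` -/

theorem mo_UU {P : Measure ℝ} [IsProbabilityMeasure P] (h : AllMo P) (k : ℕ) :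
    mo (UU P) k = ∑ j ∈ Finset.range (k + 1), (k.choose j : ℝ) * (mo P j * mo P (k - j)) := by
  unfold mo
  rw [UU, integral_map (by fun_prop) (by fun_prop)]
  have h1 : ∀ p : ℝ × ℝ, (p.1 + p.2) ^ k =
      ∑ j ∈ Finset.range (k + 1), (k.choose j : ℝ) * (p.1 ^ j * p.2 ^ (k - j)) := by
    intro p
    rw [add_pow]
    exact Finset.sum_congr rfl fun j _ => by ring
  simp only [h1]
  rw [integral_finsetSum _ fun j _ => ((h j).mul_prod (h (k - j))).const_mul _]
  refine Finset.sum_congr rfl fun j _ => ?_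
  rw [integral_const_mul]
  congr 1
  exact integral_prod_mul (μ := P) (ν := P) (fun x : ℝ => x ^ j) (fun x : ℝ => x ^ (k - j))

theorem allMo_UU {P : Measure ℝ} [IsProbabilityMeasure P] (h : AllMo P) : AllMo (UU P) := by
  intro k
  rw [UU, integrable_map_measure (by fun_prop) (by fun_prop)]
  have h1 : ((fun s : ℝ => s ^ k) ∘ fun p : ℝ × ℝ => p.1 + p.2) = fun p : ℝ × ℝ =>
      ∑ j ∈ Finset.range (k + 1), (k.choose j : ℝ) * (p.1 ^ j * p.2 ^ (k - j)) := by
    funext p
    simp only [Function.comp_apply]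
    rw [add_pow]
    exact Finset.sum_congr rfl fun j _ => by ring
  rw [h1]
  exact integrable_finsetSum _ fun j _ => ((h j).mul_prod (h (k - j))).const_mul _

theorem allMo_of_bdd {P : Measure ℝ} [IsFiniteMeasure P] {R : ℝ} (hR : ∀ᵐ x ∂P, |x| ≤ R) :
    AllMo P := by
  intro k
  refine Integrable.of_bound (by fun_prop) (R ^ k) ?_
  filter_upwards [hR] with x hx
  rw [norm_pow, Real.norm_eq_abs]
  exact pow_le_pow_left₀ (abs_nonneg x) hx k

end Pool.Agent.Lib.MP_ec2ab1_pr_h45
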