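import Mathlib
import Pool.Agent.Lib.MP_ec2ab1_pr_h45.Mom

set_option autoImplicit false

/-!
# Hermite polynomials and the chi-square distance of `X + Z` from `N(0, 2)`

`Hn n` is the monic Hermite polynomial for `N(0, 1)`, `Pn n` the one for `N(0, 2)`.
`chi_le`: `∫ v ^ 2 dN(0,2) ≤ ∑_{n ≤ N} (E He_n(X)) ^ 2 / (2 ^ n n!) + (E w(X)) ^ 2`
as soon as `w > 0` and `(2 / √3) exp (x ^ 2 / 3) - ∑_{n ≤ N} He_n(x) ^ 2 / (2 ^ n n!) ≤ w(x) ^ 2` on
the support of `X`.
-/

namespace Pool.Agent.Lib.MP_ec2ab1_pr_h45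

open MeasureTheory ProbabilityTheory Polynomial
open scoped NNReal ENNReal
open Pool.Agent.Lib.MP_ec2ab1_pr_h25b (ga et GG ga_symm GG_eq)

/-! ### polynomials and Stein's identity -/

theorem integrable_poly {Q : Measure ℝ} (h : AllMo Q) (p : ℝ[X]) :
    Integrable (fun s => p.eval s) Q := by
  have h1 : (fun s => p.eval s) = fun s => ∑ i ∈ Finset.range (p.natDegree + 1), p.coeff i * s ^ i := by
    funext s
    exact p.eval_eq_sum_range s
  rw [h1]
  exact integrable_finsetSum _ fun i _ => (h i).const_mul _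

/-- Stein's identity, variance `c` -/
private theorem stein_aux {Q : Measure ℝ} (h : AllMo Q) {c : ℝ} (h1 : mo Q 1 = 0)
    (h2 : ∀ k : ℕ, mo Q (k + 2) = c * (k + 1) * mo Q k) (p : ℝ[X]) :
    ∫ s, s * p.eval s ∂Q = c * ∫ s, (derivative p).eval s ∂Q := by
  induction p using Polynomial.induction_on' with
  | add p q hp hq =>
    have e1 : ∀ s : ℝ, s * (p + q).eval s = (X * p).eval s + (X * q).eval s := by
      intro s
      simp only [eval_add, eval_mul, eval_X]
      ring
    have e2 : ∀ s : ℝ, (derivative (p + q)).eval s = (derivative p).eval s + (derivative q).eval s := by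
      intro s
      simp
    simp only [e1, e2]
    rw [integral_add (integrable_poly h _) (integrable_poly h _),
      integral_add (integrable_poly h _) (integrable_poly h _)]
    simp only [eval_mul, eval_X]
    rw [hp, hq]
    ring
  | monomial n a =>
    simp only [eval_monomial, derivative_monomial]
    rcases n with _ | n
    · simp only [pow_zero, mul_one, Nat.cast_zero, mul_zero, zero_mul, integral_zero]
      rw [integral_mul_const]
      have : ∫ s : ℝ, s ∂Q = 0 := by
        have := h1
        simpa [mo] using this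
      rw [this, zero_mul]
    · have e1 : ∀ s : ℝ, s * (a * s ^ (n + 1)) = a * s ^ (n + 2) := fun s => by ring
      simp only [e1, Nat.add_sub_cancel]
      rw [integral_const_mul, integral_const_mul]
      have e2 := h2 n
      unfold mo at e2
      rw [e2]
      push_cast
      ring

theorem stein_ga (p : ℝ[X]) : ∫ s, s * p.eval s ∂ga = ∫ s, (derivative p).eval s ∂ga := by
  have h := stein_aux (allMo_gaussian 0 1) (c := 1) mo_ga_one
    (fun k => by rw [mo_ga_add_two]; ring) p
  rw [h, one_mul]

theorem stein_GG (p : ℝ[X]) : ∫ s, s * p.eval s ∂GG = 2 * ∫ s, (derivative p).eval s ∂GG :=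
  stein_aux (allMo_gaussian 0 2) (c := 2) mo_GG_one (fun k => mo_GG_add_two k) p

/-- monic Hermite polynomials for `N(0, 1)` -/
noncomputable def Hn : ℕ → ℝ[X]
  | 0 => 1
  | n + 1 => X * Hn n - derivative (Hn n)

/-- monic Hermite polynomials for `N(0, 2)` -/
noncomputable def Pn : ℕ → ℝ[X]
  | 0 => 1
  | n + 1 => X * Pn n - C 2 * derivative (Pn n)

theorem derivative_Hn (n : ℕ) : derivative (Hn (n + 1)) = C ((n : ℝ) + 1) * Hn n := by
  induction n with
  | zero => simp [Hn]
  | succ n ih =>
    have e : Hn (n + 1 + 1) = X * Hn (n + 1) - derivative (Hn (n + 1)) := rfl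
    rw [e, derivative_sub, derivative_mul, derivative_X, ih, derivative_C_mul]
    have e2 : Hn (n + 1) = X * Hn n - derivative (Hn n) := rfl
    have e3 : (C (((n + 1 : ℕ) : ℝ) + 1) : ℝ[X]) = 1 + C ((n : ℝ) + 1) := by
      rw [← C_1, ← C_add]
      congr 1
      push_cast
      ring
    rw [e3]
    calc 1 * Hn (n + 1) + X * (C ((n : ℝ) + 1) * Hn n) - C ((n : ℝ) + 1) * derivative (Hn n)
        = Hn (n + 1) + C ((n : ℝ) + 1) * (X * Hn n - derivative (Hn n)) := by ring
      _ = _ := by rw [← e2]; ring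

theorem derivative_Pn (n : ℕ) : derivative (Pn (n + 1)) = C ((n : ℝ) + 1) * Pn n := by
  induction n with
  | zero => simp [Pn]
  | succ n ih =>
    have e : Pn (n + 1 + 1) = X * Pn (n + 1) - C 2 * derivative (Pn (n + 1)) := rfl
    rw [e, derivative_sub, derivative_mul, derivative_X, derivative_C_mul, ih, derivative_C_mul]
    have e2 : Pn (n + 1) = X * Pn n - C 2 * derivative (Pn n) := rfl
    have e3 : (C (((n + 1 : ℕ) : ℝ) + 1) : ℝ[X]) = 1 + C ((n : ℝ) + 1) := by
      rw [← C_1, ← C_add]
      congr 1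
      push_cast
      ring
    rw [e3]
    calc 1 * Pn (n + 1) + X * (C ((n : ℝ) + 1) * Pn n)
          - C 2 * (C ((n : ℝ) + 1) * derivative (Pn n))
        = Pn (n + 1) + C ((n : ℝ) + 1) * (X * Pn n - C 2 * derivative (Pn n)) := by ring
      _ = _ := by rw [← e2]; ring

/-- values of the Hermite polynomials -/
noncomputable def he (n : ℕ) (x : ℝ) : ℝ := (Hn n).eval x

/-- values of the Hermite polynomials for `N(0, 2)` -/
noncomputable def pe (n : ℕ) (s : ℝ) : ℝ := (Pn n).eval s

@[simp] theorem he_zero (x : ℝ) : he 0 x = 1 := by simp [he, Hn]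
@[simp] theorem he_one (x : ℝ) : he 1 x = x := by simp [he, Hn]
theorem he_add_two (n : ℕ) (x : ℝ) : he (n + 2) x = x * he (n + 1) x - ((n : ℝ) + 1) * he n x := by
  have e : Hn (n + 2) = X * Hn (n + 1) - derivative (Hn (n + 1)) := rfl
  unfold he
  rw [e, derivative_Hn]
  simp

@[simp] theorem pe_zero (x : ℝ) : pe 0 x = 1 := by simp [pe, Pn]
@[simp] theorem pe_one (x : ℝ) : pe 1 x = x := by simp [pe, Pn]
theorem pe_add_two (n : ℕ) (x : ℝ) :
    pe (n + 2) x = x * pe (n + 1) x - 2 * ((n : ℝ) + 1) * pe n x := by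
  have e : Pn (n + 2) = X * Pn (n + 1) - C 2 * derivative (Pn (n + 1)) := rfl
  unfold pe
  rw [e, derivative_Pn]
  simp
  ring

theorem continuous_he (n : ℕ) : Continuous (he n) := (Hn n).continuous
theorem continuous_pe (n : ℕ) : Continuous (pe n) := (Pn n).continuous

/-- orthogonality -/
theorem integral_pe_succ_mul (n : ℕ) (f : ℝ[X]) :
    ∫ s, pe (n + 1) s * f.eval s ∂GG = 2 * ∫ s, pe n s * (derivative f).eval s ∂GG := by
  have hG := allMo_gaussian 0 2
  have e1 : ∀ s : ℝ, pe (n + 1) s * f.eval s =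
      s * (Pn n * f).eval s - (C 2 * derivative (Pn n) * f).eval s := by
    intro s
    have e : Pn (n + 1) = X * Pn n - C 2 * derivative (Pn n) := rfl
    unfold pe
    rw [e]
    simp only [eval_sub, eval_mul, eval_X, eval_C]
    ring
  have i1 : Integrable (fun s => s * (Pn n * f).eval s) GG := by
    refine (integrable_poly hG (X * (Pn n * f))).congr (Filter.Eventually.of_forall fun s => ?_)
    simp
  simp only [e1]
  rw [integral_sub i1 (integrable_poly hG _), stein_GG, derivative_mul]
  have e2 : ∀ s : ℝ, (derivative (Pn n) * f + Pn n * derivative f).eval s =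
      (derivative (Pn n) * f).eval s + (Pn n * derivative f).eval s := fun s => eval_add
  have e3 : ∀ s : ℝ, (C 2 * derivative (Pn n) * f).eval s =
      2 * (derivative (Pn n) * f).eval s := by
    intro s
    simp only [eval_mul, eval_C]
    ring
  simp only [e2, e3]
  rw [integral_add (integrable_poly hG _) (integrable_poly hG _), integral_const_mul]
  have e4 : ∀ s : ℝ, (Pn n * derivative f).eval s = pe n s * (derivative f).eval s :=
    fun s => eval_mul
  simp only [e4]
  ring

theorem integral_pe_mul_pe (m n : ℕ) :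
    ∫ s, pe m s * pe n s ∂GG = if m = n then 2 ^ n * (n.factorial : ℝ) else 0 := by
  induction m generalizing n with
  | zero =>
    rcases n with _ | n
    · simp
    · have h := integral_pe_succ_mul n 1
      simp only [eval_one, mul_one, derivative_one, eval_zero, mul_zero, integral_zero] at h
      simp [h]
  | succ m ih =>
    rcases n with _ | n
    · have h := integral_pe_succ_mul m 1
      simp only [eval_one, mul_one, derivative_one, eval_zero, mul_zero, integral_zero] at h
      simp [h]
    · have h := integral_pe_succ_mul m (Pn (n + 1))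
      have e : ∀ s : ℝ, pe m s * (derivative (Pn (n + 1))).eval s =
          ((n : ℝ) + 1) * (pe m s * pe n s) := by
        intro s
        rw [derivative_Pn]
        simp only [eval_mul, eval_C, pe]
        ring
      simp only [e] at h
      rw [integral_const_mul, ih n] at h
      change ∫ s, pe (m + 1) s * pe (n + 1) s ∂GG = _ at h
      rw [h]
      by_cases hmn : m = n
      · subst hmn
        simp only [if_true]
        rw [Nat.factorial_succ]
        push_cast
        ring
      · rw [if_neg hmn, if_neg (by omega)]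
        ring

/-- `E Pn (x + Z) = Hn (x)` -/
theorem integral_pe_add (n : ℕ) (x : ℝ) : ∫ z, pe n (x + z) ∂ga = he n x := by
  have hg := allMo_gaussian 0 1
  -- the general step
  have key : ∀ n : ℕ, ∫ z, pe n (x + z) ∂ga = he n x →
      ∫ z, (derivative (Pn n)).eval (x + z) ∂ga = (derivative (Hn n)).eval x →
      ∫ z, pe (n + 1) (x + z) ∂ga = he (n + 1) x := by
    intro n h1 h2
    have e : Pn (n + 1) = X * Pn n - C 2 * derivative (Pn n) := rfl
    have ec : ∀ (p : ℝ[X]) (z : ℝ), (p.comp (X + C x)).eval z = p.eval (x + z) := by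
      intro p z
      rw [eval_comp]
      simp [add_comm]
    have e1 : ∀ z : ℝ, pe (n + 1) (x + z) = x * pe n (x + z) +
        z * ((Pn n).comp (X + C x)).eval z - 2 * (derivative (Pn n)).eval (x + z) := by
      intro z
      rw [ec]
      unfold pe
      rw [e]
      simp only [eval_sub, eval_mul, eval_X, eval_C]
      ring
    have ip : ∀ p : ℝ[X], Integrable (fun z => p.eval (x + z)) ga := by
      intro p
      refine (integrable_poly hg (p.comp (X + C x))).congr (Filter.Eventually.of_forall fun z => ?_)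
      exact ec p z
    have i2 : Integrable (fun z => z * ((Pn n).comp (X + C x)).eval z) ga := by
      refine (integrable_poly hg (X * (Pn n).comp (X + C x))).congr
        (Filter.Eventually.of_forall fun z => ?_)
      simp
    have i1 : Integrable (fun z => x * pe n (x + z)) ga := (ip (Pn n)).const_mul x
    have i12 : Integrable (fun z => x * pe n (x + z) +
        z * ((Pn n).comp (X + C x)).eval z) ga := i1.add i2
    simp only [e1]
    rw [integral_sub i12 ((ip _).const_mul 2), integral_add i1 i2, integral_const_mul,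
      integral_const_mul, stein_ga, h1, h2]
    have e5 : ∀ z : ℝ, (derivative ((Pn n).comp (X + C x))).eval z =
        (derivative (Pn n)).eval (x + z) := by
      intro z
      rw [derivative_comp]
      simp only [derivative_add, derivative_X, derivative_C, add_zero, one_mul]
      exact ec _ z
    simp only [e5]
    rw [h2]
    have e6 : Hn (n + 1) = X * Hn n - derivative (Hn n) := rfl
    unfold he
    rw [e6]
    simp only [eval_sub, eval_mul, eval_X]
    ring
  have two : ∀ n : ℕ, ∫ z, pe n (x + z) ∂ga = he n x ∧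
      ∫ z, pe (n + 1) (x + z) ∂ga = he (n + 1) x := by
    intro n
    induction n with
    | zero =>
      have h0 : ∫ z, pe 0 (x + z) ∂ga = he 0 x := by simp
      refine ⟨h0, key 0 h0 ?_⟩
      simp [Pn, Hn]
    | succ n ih =>
      refine ⟨ih.2, key (n + 1) ih.2 ?_⟩
      rw [derivative_Pn, derivative_Hn]
      simp only [eval_mul, eval_C]
      rw [integral_const_mul]
      congr 1
      exact ih.1
  exact (two n).1

/-- `∫ K(s, x) f(s) dN(0,2) = E f(x + Z)` -/
theorem integral_KK_mul (x : ℝ) (f : ℝ → ℝ) :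
    ∫ s, KK s x * f s ∂GG = ∫ z, f (x + z) ∂ga := by
  have h1 : ∫ s, f s ∂(gaussianReal x 1) = ∫ s, KK s x * f s ∂GG := by
    have hm : Measurable fun s => ENNReal.ofReal (KK s x) :=
      (measurable_KK.comp (measurable_id.prodMk measurable_const)).ennreal_ofReal
    rw [withDensity_KK, integral_withDensity_eq_integral_toReal_smul hm
      (Filter.Eventually.of_forall fun s => ENNReal.ofReal_lt_top)]
    refine integral_congr_ae (Filter.Eventually.of_forall fun s => ?_)
    simp only [smul_eq_mul]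
    rw [ENNReal.toReal_ofReal (KK_pos s x).le]
  have h2 : gaussianReal x 1 = ga.map (fun z => x + z) := by
    rw [gaussianReal_map_const_add, zero_add]
  rw [← h1, h2]
  have he : MeasurableEmbedding (fun z : ℝ => x + z) := measurableEmbedding_addLeft x
  exact he.integral_map f

theorem integral_KK_pe (x : ℝ) (n : ℕ) : ∫ s, KK s x * pe n s ∂GG = he n x := by
  rw [integral_KK_mul, integral_pe_add]

/-- the kernel `∫ K(s, x) K(s, y) dN(0,2)` -/
noncomputable def K2 (x y : ℝ) : ℝ :=
  2 / Real.sqrt 3 * Real.exp ((x + y) ^ 2 / 3 - (x ^ 2 + y ^ 2) / 2)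

theorem K2_pos (x y : ℝ) : 0 < K2 x y := by
  unfold K2
  positivity

theorem continuous_K2 : Continuous fun p : ℝ × ℝ => K2 p.1 p.2 := by
  unfold K2
  fun_prop

private theorem pdf_KK_KK (s x y : ℝ) :
    gaussianPDFReal 0 2 s * (KK s x * KK s y) =
      K2 x y * gaussianPDFReal (2 / 3 * (x + y)) (2 / 3) s := by
  unfold gaussianPDFReal KK K2
  have h3 : (0 : ℝ) < Real.sqrt 3 := by positivity
  have hp : (0 : ℝ) < Real.sqrt Real.pi := Real.sqrt_pos.2 Real.pi_pos
  have h1 : Real.sqrt (2 * Real.pi * ((2 : ℝ≥0) : ℝ)) = 2 * Real.sqrt Real.pi := by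
    have : (2 * Real.pi * ((2 : ℝ≥0) : ℝ)) = 2 ^ 2 * Real.pi := by
      push_cast
      ring
    rw [this, Real.sqrt_mul (by norm_num), Real.sqrt_sq (by norm_num)]
  have h2 : Real.sqrt (2 * Real.pi * ((2 / 3 : ℝ≥0) : ℝ)) = 2 * Real.sqrt Real.pi / Real.sqrt 3 := by
    have : (2 * Real.pi * ((2 / 3 : ℝ≥0) : ℝ)) = 2 ^ 2 * Real.pi / 3 := by
      push_cast
      ring
    rw [this, Real.sqrt_div (by positivity), Real.sqrt_mul (by norm_num),
      Real.sqrt_sq (by norm_num)]
  rw [h1, h2]
  have h4 : Real.exp (-(s - 0) ^ 2 / (2 * ((2 : ℝ≥0) : ℝ))) *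
      (Real.exp (-s ^ 2 / 4 + s * x - x ^ 2 / 2) * Real.exp (-s ^ 2 / 4 + s * y - y ^ 2 / 2)) =
      Real.exp ((x + y) ^ 2 / 3 - (x ^ 2 + y ^ 2) / 2) *
        Real.exp (-(s - 2 / 3 * (x + y)) ^ 2 / (2 * ((2 / 3 : ℝ≥0) : ℝ))) := by
    rw [← Real.exp_add, ← Real.exp_add, ← Real.exp_add]
    congr 1
    push_cast
    ring
  have h5 : Real.sqrt 2 * Real.sqrt 2 = 2 := Real.mul_self_sqrt (by norm_num)
  calc (2 * Real.sqrt Real.pi)⁻¹ * Real.exp (-(s - 0) ^ 2 / (2 * ((2 : ℝ≥0) : ℝ))) *
        (Real.sqrt 2 * Real.exp (-s ^ 2 / 4 + s * x - x ^ 2 / 2) *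
          (Real.sqrt 2 * Real.exp (-s ^ 2 / 4 + s * y - y ^ 2 / 2))) =
      (2 * Real.sqrt Real.pi)⁻¹ * (Real.sqrt 2 * Real.sqrt 2) *
        (Real.exp (-(s - 0) ^ 2 / (2 * ((2 : ℝ≥0) : ℝ))) *
      (Real.exp (-s ^ 2 / 4 + s * x - x ^ 2 / 2) * Real.exp (-s ^ 2 / 4 + s * y - y ^ 2 / 2))) := by
        ring
    _ = _ := by
      rw [h4, h5]
      field_simp

theorem lintegral_KK_KK (x y : ℝ) :
    ∫⁻ s, ENNReal.ofReal (KK s x * KK s y) ∂GG = ENNReal.ofReal (K2 x y) := by
  have hm : Measurable fun s => ENNReal.ofReal (KK s x * KK s y) :=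
    ((measurable_KK.comp (measurable_id.prodMk measurable_const)).mul
      (measurable_KK.comp (measurable_id.prodMk measurable_const))).ennreal_ofReal
  rw [GG, gaussianReal_of_var_ne_zero _ two_ne_zero,
    lintegral_withDensity_eq_lintegral_mul _ (measurable_gaussianPDF 0 2) hm]
  have h1 : ∀ s : ℝ, (gaussianPDF 0 2 * fun s => ENNReal.ofReal (KK s x * KK s y)) s =
      ENNReal.ofReal (K2 x y) * gaussianPDF (2 / 3 * (x + y)) (2 / 3) s := by
    intro s
    rw [Pi.mul_apply, gaussianPDF, gaussianPDF, ← ENNReal.ofReal_mul (gaussianPDFReal_nonneg _ _ _),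
      ← ENNReal.ofReal_mul (K2_pos _ _).le, pdf_KK_KK]
  simp only [h1]
  rw [lintegral_const_mul _ (measurable_gaussianPDF _ _),
    lintegral_gaussianPDF_eq_one _ (by norm_num), mul_one]

theorem measurable_KK_KK (x y : ℝ) : Measurable fun s => KK s x * KK s y :=
  (measurable_KK.comp (measurable_id.prodMk measurable_const)).mul
      (measurable_KK.comp (measurable_id.prodMk measurable_const))

theorem integrable_KK_KK (x y : ℝ) : Integrable (fun s => KK s x * KK s y) GG := by
  refine ⟨(measurable_KK_KK x y).aestronglyMeasurable, ?_⟩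
  rw [hasFiniteIntegral_iff_ofReal (Filter.Eventually.of_forall fun s =>
    (mul_pos (KK_pos _ _) (KK_pos _ _)).le), lintegral_KK_KK]
  exact ENNReal.ofReal_lt_top

theorem integral_KK_KK (x y : ℝ) : ∫ s, KK s x * KK s y ∂GG = K2 x y := by
  rw [integral_eq_lintegral_of_nonneg_ae (Filter.Eventually.of_forall fun s =>
    (mul_pos (KK_pos _ _) (KK_pos _ _)).le) (measurable_KK_KK x y).aestronglyMeasurable,
    lintegral_KK_KK, ENNReal.toReal_ofReal (K2_pos _ _).le]

theorem integrable_KK_pe (x : ℝ) (n : ℕ) : Integrable (fun s => KK s x * pe n s) GG := by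
  have h1 : Integrable (fun s => (Real.sqrt 2 * Real.exp (x ^ 2 / 2)) * |pe n s|) GG :=
    ((integrable_poly (allMo_gaussian 0 2) (Pn n)).abs).const_mul _
  refine h1.mono' ((measurable_KK.comp (measurable_id.prodMk measurable_const)).mul
    (continuous_pe n).measurable).aestronglyMeasurable (Filter.Eventually.of_forall fun s => ?_)
  rw [Real.norm_eq_abs, abs_mul, abs_of_pos (KK_pos s x)]
  exact mul_le_mul_of_nonneg_right (KK_le_right s x) (abs_nonneg _)

theorem integrable_pe_pe (m n : ℕ) : Integrable (fun s => pe m s * pe n s) GG := by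
  refine (integrable_poly (allMo_gaussian 0 2) (Pn m * Pn n)).congr
    (Filter.Eventually.of_forall fun s => ?_)
  simp [pe]

/-- `2 ^ n n!` -/
noncomputable def nn (n : ℕ) : ℝ := 2 ^ n * (n.factorial : ℝ)

theorem nn_pos (n : ℕ) : 0 < nn n := by
  unfold nn
  positivity

/-- the remainder of the kernel -/
noncomputable def rem (N : ℕ) (x s : ℝ) : ℝ :=
  KK s x - ∑ n ∈ Finset.range (N + 1), he n x / nn n * pe n s

theorem integral_rem_mul_rem (N : ℕ) (x y : ℝ) :
    Integrable (fun s => rem N x s * rem N y s) GG ∧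
    ∫ s, rem N x s * rem N y s ∂GG =
      K2 x y - ∑ n ∈ Finset.range (N + 1), he n x * he n y / nn n := by
  have e : ∀ s, rem N x s * rem N y s = KK s x * KK s y
      - ∑ n ∈ Finset.range (N + 1), he n y / nn n * (KK s x * pe n s)
      - ∑ n ∈ Finset.range (N + 1), he n x / nn n * (KK s y * pe n s)
      + ∑ m ∈ Finset.range (N + 1), ∑ n ∈ Finset.range (N + 1),
          he m x / nn m * (he n y / nn n) * (pe m s * pe n s) := by
    intro s
    unfold rem
    have e1 : ∑ m ∈ Finset.range (N + 1), ∑ n ∈ Finset.range (N + 1),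
          he m x / nn m * (he n y / nn n) * (pe m s * pe n s) =
        (∑ m ∈ Finset.range (N + 1), he m x / nn m * pe m s) *
          ∑ n ∈ Finset.range (N + 1), he n y / nn n * pe n s := by
      rw [Finset.sum_mul_sum]
      refine Finset.sum_congr rfl fun m _ => Finset.sum_congr rfl fun n _ => ?_
      ring
    have e2 : ∀ a b : ℝ, ∑ n ∈ Finset.range (N + 1), he n b / nn n * (KK s a * pe n s) =
        KK s a * ∑ n ∈ Finset.range (N + 1), he n b / nn n * pe n s := by
      intro a b
      rw [Finset.mul_sum]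
      exact Finset.sum_congr rfl fun n _ => by ring
    rw [e1, e2, e2]
    ring
  have i1 := integrable_KK_KK x y
  have i2 : ∀ a b : ℝ, Integrable (fun s => ∑ n ∈ Finset.range (N + 1),
      he n b / nn n * (KK s a * pe n s)) GG := fun a b =>
    integrable_finsetSum _ fun n _ => (integrable_KK_pe a n).const_mul _
  have i3 : Integrable (fun s => ∑ m ∈ Finset.range (N + 1), ∑ n ∈ Finset.range (N + 1),
          he m x / nn m * (he n y / nn n) * (pe m s * pe n s)) GG :=
    integrable_finsetSum _ fun m _ => integrable_finsetSum _ fun n _ =>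
      (integrable_pe_pe m n).const_mul _
  have i5 : Integrable (fun s => KK s x * KK s y
      - ∑ n ∈ Finset.range (N + 1), he n y / nn n * (KK s x * pe n s)) GG := i1.sub (i2 x y)
  have i4 : Integrable (fun s => KK s x * KK s y
      - ∑ n ∈ Finset.range (N + 1), he n y / nn n * (KK s x * pe n s)
      - ∑ n ∈ Finset.range (N + 1), he n x / nn n * (KK s y * pe n s)) GG := i5.sub (i2 y x)
  simp only [e]
  refine ⟨i4.add i3, ?_⟩
  have j1 : ∀ a b : ℝ, ∫ s, ∑ n ∈ Finset.range (N + 1), he n b / nn n * (KK s a * pe n s) ∂GG =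
      ∑ n ∈ Finset.range (N + 1), he n a * he n b / nn n := by
    intro a b
    rw [integral_finsetSum _ fun n _ => (integrable_KK_pe a n).const_mul _]
    refine Finset.sum_congr rfl fun n _ => ?_
    rw [integral_const_mul, integral_KK_pe]
    ring
  have j2 : ∫ s, ∑ m ∈ Finset.range (N + 1), ∑ n ∈ Finset.range (N + 1),
          he m x / nn m * (he n y / nn n) * (pe m s * pe n s) ∂GG =
      ∑ n ∈ Finset.range (N + 1), he n x * he n y / nn n := by
    rw [integral_finsetSum _ fun m _ => integrable_finsetSum _ fun n _ =>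
      (integrable_pe_pe m n).const_mul _]
    refine Finset.sum_congr rfl fun m hm => ?_
    rw [integral_finsetSum _ fun n _ => (integrable_pe_pe m n).const_mul _]
    rw [Finset.sum_eq_single m]
    · rw [integral_const_mul, integral_pe_mul_pe, if_pos rfl]
      have := (nn_pos m).ne'
      change he m x / nn m * (he m y / nn m) * nn m = _
      field_simp
    · intro n _ hn
      rw [integral_const_mul, integral_pe_mul_pe, if_neg (Ne.symm hn), mul_zero]
    · intro h
      exact absurd hm h
  rw [integral_add i4 i3, integral_sub i5 (i2 y x), integral_sub i1 (i2 x y),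
    integral_KK_KK, j1, j1, j2]
  have e3 : ∑ n ∈ Finset.range (N + 1), he n y * he n x / nn n =
      ∑ n ∈ Finset.range (N + 1), he n x * he n y / nn n :=
    Finset.sum_congr rfl fun n _ => by ring
  rw [e3]
  ring

/-- the diagonal of the remainder -/
noncomputable def kd (N : ℕ) (x : ℝ) : ℝ :=
  2 / Real.sqrt 3 * Real.exp (x ^ 2 / 3) - ∑ n ∈ Finset.range (N + 1), he n x ^ 2 / nn n

theorem kernel_le {N : ℕ} {x y a b : ℝ} (ha : 0 < a) (hb : 0 < b) (hx : kd N x ≤ a ^ 2)
    (hy : kd N y ≤ b ^ 2) :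
    K2 x y ≤ ∑ n ∈ Finset.range (N + 1), he n x * he n y / nn n + a * b := by
  obtain ⟨ixx, jxx⟩ := integral_rem_mul_rem N x x
  obtain ⟨iyy, jyy⟩ := integral_rem_mul_rem N y y
  obtain ⟨ixy, jxy⟩ := integral_rem_mul_rem N x y
  have hpt : ∀ s, rem N x s * rem N y s ≤
      b / (2 * a) * (rem N x s * rem N x s) + a / (2 * b) * (rem N y s * rem N y s) := by
    intro s
    have h1 : 0 ≤ (b * rem N x s - a * rem N y s) ^ 2 / (2 * a * b) := by positivity
    have h2 : (b * rem N x s - a * rem N y s) ^ 2 / (2 * a * b) =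
        b / (2 * a) * (rem N x s * rem N x s) + a / (2 * b) * (rem N y s * rem N y s)
          - rem N x s * rem N y s := by
      field_simp
      ring
    linarith
  have h := integral_mono ixy ((ixx.const_mul _).add (iyy.const_mul _)) hpt
  simp only [Pi.add_apply] at h
  rw [integral_add (ixx.const_mul _) (iyy.const_mul _), integral_const_mul, integral_const_mul,
    jxx, jyy, jxy] at h
  have ex : ∀ z : ℝ, K2 z z - ∑ n ∈ Finset.range (N + 1), he n z * he n z / nn n = kd N z := by
    intro z
    unfold K2 kd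
    have : (z + z) ^ 2 / 3 - (z ^ 2 + z ^ 2) / 2 = z ^ 2 / 3 := by ring
    rw [this]
    congr 1
    exact Finset.sum_congr rfl fun n _ => by ring
  rw [ex, ex] at h
  have h3 : b / (2 * a) * kd N x ≤ b / (2 * a) * a ^ 2 :=
    mul_le_mul_of_nonneg_left hx (by positivity)
  have h4 : a / (2 * b) * kd N y ≤ a / (2 * b) * b ^ 2 :=
    mul_le_mul_of_nonneg_left hy (by positivity)
  have h5 : b / (2 * a) * a ^ 2 + a / (2 * b) * b ^ 2 = a * b := by
    field_simp
    ring
  linarith

/-! ### the chi-square distance -/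

section chi

variable {P : Measure ℝ} [IsProbabilityMeasure P]

theorem lintegral_vd_sq :
    ∫⁻ s, ENNReal.ofReal (vd P s ^ 2) ∂GG = ∫⁻ p : ℝ × ℝ, ENNReal.ofReal (K2 p.1 p.2) ∂(P.prod P) := by
  have hk : ∀ s : ℝ, Measurable fun y => ENNReal.ofReal (KK s y) := fun s =>
    (measurable_KK.comp (measurable_const.prodMk measurable_id)).ennreal_ofReal
  have hc : Continuous fun q : (ℝ × ℝ) × ℝ => KK q.2 q.1.1 * KK q.2 q.1.2 := by
    unfold KK
    fun_prop
  have h1 : ∀ s : ℝ, ENNReal.ofReal (vd P s ^ 2) =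
      ∫⁻ q : ℝ × ℝ, ENNReal.ofReal (KK s q.1 * KK s q.2) ∂(P.prod P) := by
    intro s
    rw [lintegral_prod]
    · rw [sq, ENNReal.ofReal_mul (vd_nonneg s), ofReal_vd, ← lintegral_mul_const _ (hk s)]
      refine lintegral_congr fun a => ?_
      rw [← lintegral_const_mul _ (hk s)]
      refine lintegral_congr fun b => ?_
      rw [ENNReal.ofReal_mul (KK_pos _ _).le]
    · exact (hc.comp (continuous_id.prodMk continuous_const :
        Continuous fun q : ℝ × ℝ => (q, s))).measurable.ennreal_ofReal.aemeasurable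
  simp only [h1]
  rw [lintegral_lintegral_swap]
  · exact lintegral_congr fun q => lintegral_KK_KK q.1 q.2
  · exact (hc.measurable.comp measurable_swap).ennreal_ofReal.aemeasurable

theorem integral_vd_sq :
    ∫ s, vd P s ^ 2 ∂GG = ∫ p : ℝ × ℝ, K2 p.1 p.2 ∂(P.prod P) := by
  rw [integral_eq_lintegral_of_nonneg_ae (Filter.Eventually.of_forall fun s => sq_nonneg _)
    (measurable_vd.pow_const 2).aestronglyMeasurable, lintegral_vd_sq,
    integral_eq_lintegral_of_nonneg_ae (Filter.Eventually.of_forall fun p => (K2_pos _ _).le)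
    continuous_K2.measurable.aestronglyMeasurable]

theorem integral_prod_he (n : ℕ) :
    ∫ p : ℝ × ℝ, he n p.1 * he n p.2 / nn n ∂(P.prod P) = (∫ x, he n x ∂P) ^ 2 / nn n := by
  rw [integral_div, integral_prod_mul (μ := P) (ν := P) (he n) (he n), sq]

/-- upper bound for the chi-square distance -/
theorem chi_le {R : ℝ} (hR : ∀ᵐ x ∂P, |x| ≤ R) (N : ℕ) {w : ℝ → ℝ} (hw : Continuous w)
    (hw0 : ∀ x, |x| ≤ R → 0 < w x) (hk : ∀ x, |x| ≤ R → kd N x ≤ w x ^ 2) :
    ∫ s, vd P s ^ 2 ∂GG ≤
      ∑ n ∈ Finset.range (N + 1), (∫ x, he n x ∂P) ^ 2 / nn n + (∫ x, w x ∂P) ^ 2 := by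
  have hbd : ∀ f : ℝ → ℝ, Continuous f → Integrable f P := by
    intro f hf
    obtain ⟨B, hB⟩ := (isCompact_Icc (a := -R) (b := R)).exists_bound_of_continuousOn hf.continuousOn
    refine Integrable.of_bound hf.aestronglyMeasurable B ?_
    filter_upwards [hR] with x hx
    exact hB x (abs_le.1 hx)
  have hR2 : ∀ᵐ p : ℝ × ℝ ∂(P.prod P), |p.1| ≤ R ∧ |p.2| ≤ R := by
    have h1 : ∀ᵐ p : ℝ × ℝ ∂(P.prod P), |p.1| ≤ R :=
      (Measure.quasiMeasurePreserving_fst).ae hR
    have h2 : ∀ᵐ p : ℝ × ℝ ∂(P.prod P), |p.2| ≤ R :=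
      (Measure.quasiMeasurePreserving_snd).ae hR
    filter_upwards [h1, h2] with p a b using ⟨a, b⟩
  have ihe : ∀ n : ℕ, Integrable (fun p : ℝ × ℝ => he n p.1 * he n p.2 / nn n) (P.prod P) :=
    fun n => ((hbd _ (continuous_he n)).mul_prod (hbd _ (continuous_he n))).div_const _
  have iw : Integrable (fun p : ℝ × ℝ => w p.1 * w p.2) (P.prod P) := (hbd w hw).mul_prod (hbd w hw)
  have iK : Integrable (fun p : ℝ × ℝ => K2 p.1 p.2) (P.prod P) := by
    have hcomp : IsCompact (Set.Icc (-R) R ×ˢ Set.Icc (-R) R) := isCompact_Icc.prod isCompact_Icc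
    obtain ⟨B, hB⟩ := hcomp.exists_bound_of_continuousOn continuous_K2.continuousOn
    refine Integrable.of_bound continuous_K2.aestronglyMeasurable B ?_
    filter_upwards [hR2] with p hp
    exact hB p ⟨abs_le.1 hp.1, abs_le.1 hp.2⟩
  rw [integral_vd_sq]
  have h := integral_mono_ae iK ((integrable_finsetSum (Finset.range (N + 1))
    fun n _ => ihe n).add iw) (by
      filter_upwards [hR2] with p hp
      exact kernel_le (hw0 _ hp.1) (hw0 _ hp.2) (hk _ hp.1) (hk _ hp.2))
  refine h.trans (le_of_eq ?_)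
  simp only [Pi.add_apply]
  rw [integral_add (integrable_finsetSum _ fun n _ => ihe n) iw,
    integral_finsetSum _ fun n _ => ihe n]
  congr 1
  · exact Finset.sum_congr rfl fun n _ => integral_prod_he n
  · rw [integral_prod_mul (μ := P) (ν := P) w w, sq]

end chi

end Pool.Agent.Lib.MP_ec2ab1_pr_h45
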