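import Mathlib
import Pool.Agent.Lib.MP_ec2ab1_pr_h25b.Main
import Pool.Agent.Lib.MP_ec2ab1_pr_h45.Ker

set_option autoImplicit false

/-!
# The Donsker-Varadhan inequality for bounded `X`, and the reduction to a certificate
-/

namespace Pool.Agent.Lib.MP_ec2ab1_pr_h45

open MeasureTheory ProbabilityTheory
open scoped NNReal ENNReal
open Pool.Agent.Lib.MP_ec2ab1_pr_h25b (ga et GG ga_symm GG_eq ent_GG ent_shift conv_shift
  GG_withDensity second_moment)

/-- Gibbs inequality for a law on an interval, compared with a tilted Gaussian law -/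
theorem ent_U_ge {ν : Measure ℝ} [IsProbabilityMeasure ν] (hac : ν ≪ volume)
    (hint : Integrable (fun x => (ν.rnDeriv volume x).toReal *
      Real.log (ν.rnDeriv volume x).toReal) volume)
    {B c : ℝ} (hB : 0 < B) (hsupp : ∀ᵐ s ∂ν, |s - c| ≤ B) {l : ℝ → ℝ} (hl : Continuous l) :
    ∫ s, l (s - c) ∂ν - (∫ s, (s - c) ^ 2 ∂ν) / 4 - Real.log (Real.sqrt (2 * Real.pi * 2)) -
        Real.log (∫ s in Set.Icc (-B) B, Real.exp (l s) ∂GG) ≤
      ∫ x, (ν.rnDeriv volume x).toReal * Real.log (ν.rnDeriv volume x).toReal := by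
  set f : ℝ → ℝ := fun x => (ν.rnDeriv volume x).toReal with hf
  have hf0 : ∀ x, 0 ≤ f x := fun x => ENNReal.toReal_nonneg
  have hpos : 0 < Real.sqrt (2 * Real.pi * 2) := Real.sqrt_pos.2 (by positivity)
  -- the normalising constant
  set Z : ℝ := ∫ s in Set.Icc (-B) B, Real.exp (l s) ∂GG with hZ
  have hpdf : ∀ s, 0 < gaussianPDFReal 0 2 s := fun s => gaussianPDFReal_pos _ _ _ (by norm_num)
  have hZeq : Z = ∫ s in Set.Icc (-B) B, gaussianPDFReal 0 2 s * Real.exp (l s) := by
    rw [hZ, GG, gaussianReal_of_var_ne_zero 0 (by norm_num : (2 : ℝ≥0) ≠ 0),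
      setIntegral_withDensity_eq_setIntegral_toReal_smul (measurable_gaussianPDF _ _)
        (Filter.Eventually.of_forall fun _ => gaussianPDF_lt_top) _ measurableSet_Icc]
    simp only [toReal_gaussianPDF, smul_eq_mul]
  have hcont : Continuous fun s => gaussianPDFReal 0 2 s * Real.exp (l s) := by
    have h1 : Continuous (gaussianPDFReal 0 2) := by
      unfold gaussianPDFReal
      fun_prop
    exact h1.mul (Real.continuous_exp.comp hl)
  have hIi : IntegrableOn (fun s => gaussianPDFReal 0 2 s * Real.exp (l s)) (Set.Icc (-B) B) :=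
    hcont.continuousOn.integrableOn_Icc
  have hZpos : 0 < Z := by
    rw [hZeq, setIntegral_pos_iff_support_of_nonneg_ae]
    · have h1 : Function.support (fun s => gaussianPDFReal 0 2 s * Real.exp (l s)) = Set.univ := by
        ext s
        simp only [Function.mem_support, Set.mem_univ, iff_true]
        exact (mul_pos (hpdf s) (Real.exp_pos _)).ne'
      rw [h1, Set.univ_inter, Real.volume_Icc]
      simp only [ENNReal.ofReal_pos]
      linarith
    · exact Filter.Eventually.of_forall fun s => (mul_pos (hpdf s) (Real.exp_pos _)).le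
    · exact hIi
  -- the comparison density
  set g : ℝ → ℝ := Set.indicator (Set.Icc (-B) B)
    (fun s => gaussianPDFReal 0 2 s * Real.exp (l s) / Z) with hg
  have hgi : Integrable g volume := by
    rw [hg, integrable_indicator_iff measurableSet_Icc]
    exact hIi.div_const Z
  have hg1 : ∫ s, g s = 1 := by
    rw [hg, integral_indicator measurableSet_Icc, integral_div, ← hZeq, div_self hZpos.ne']
  have hgc : Integrable (fun x => g (x - c)) volume := hgi.comp_sub_right c
  have hgc1 : ∫ x, g (x - c) = 1 := by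
    rw [integral_sub_right_eq_self g c, hg1]
  -- the log of the comparison density
  set L : ℝ → ℝ := fun s => l s - s ^ 2 / 4 - Real.log (Real.sqrt (2 * Real.pi * 2)) - Real.log Z
    with hL
  have hLc : Continuous L := by
    rw [hL]
    fun_prop
  have hgL : ∀ s ∈ Set.Icc (-B) B, 0 < g s ∧ Real.log (g s) = L s := by
    intro s hs
    have h1 : g s = gaussianPDFReal 0 2 s * Real.exp (l s) / Z := by
      rw [hg]
      exact Set.indicator_of_mem hs _
    have hlog : Real.log (gaussianPDFReal 0 2 s) =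
        -Real.log (Real.sqrt (2 * Real.pi * 2)) - s ^ 2 / 4 := by
      unfold gaussianPDFReal
      rw [Real.log_mul (by simpa using hpos.ne') (Real.exp_pos _).ne', Real.log_exp,
        Real.log_inv]
      simp
      ring
    refine ⟨?_, ?_⟩
    · rw [h1]
      exact div_pos (mul_pos (hpdf s) (Real.exp_pos _)) hZpos
    · rw [h1, Real.log_div (mul_pos (hpdf s) (Real.exp_pos _)).ne' hZpos.ne',
        Real.log_mul (hpdf s).ne' (Real.exp_pos _).ne', Real.log_exp, hlog, hL]
      ring
  -- `f` vanishes outside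
  have hfz : ∀ᵐ x ∂volume, f x ≠ 0 → |x - c| ≤ B := by
    have h1 : ∀ᵐ x ∂(volume.withDensity (ν.rnDeriv volume)), |x - c| ≤ B := by
      rw [Measure.withDensity_rnDeriv_eq _ _ hac]
      exact hsupp
    rw [ae_withDensity_iff (Measure.measurable_rnDeriv _ _)] at h1
    filter_upwards [h1] with x hx h2
    refine hx fun h3 => h2 ?_
    rw [hf]
    simp [h3]
  -- the law of `ν`
  have hbound : ∀ φ : ℝ → ℝ, Continuous φ → Integrable (fun s => φ (s - c)) ν := by
    intro φ hφ
    obtain ⟨M, hM⟩ := (isCompact_Icc (a := -B) (b := B)).exists_bound_of_continuousOn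
      hφ.continuousOn
    refine Integrable.of_bound (hφ.comp (continuous_id.sub continuous_const)).aestronglyMeasurable
      M ?_
    filter_upwards [hsupp] with x hx
    exact hM _ (abs_le.1 hx)
  have hint2 : ∀ φ : ℝ → ℝ, Continuous φ → Integrable (fun x => f x * φ (x - c)) volume := by
    intro φ hφ
    have h := (integrable_rnDeriv_smul_iff hac).2 (hbound φ hφ)
    exact h
  have heq2 : ∀ φ : ℝ → ℝ, Continuous φ → ∫ x, f x * φ (x - c) = ∫ s, φ (s - c) ∂ν := by
    intro φ hφ
    exact integral_rnDeriv_smul hac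
  have hfi : Integrable f volume := by
    have := hint2 (fun _ => 1) continuous_const
    simpa using this
  have hf1 : ∫ x, f x = 1 := by
    have := heq2 (fun _ => 1) continuous_const
    simpa using this
  -- pointwise inequality
  have hpt : ∀ᵐ x ∂volume, f x * L (x - c) + (f x - g (x - c)) ≤ f x * Real.log (f x) := by
    filter_upwards [hfz] with x hx
    by_cases hxB : |x - c| ≤ B
    · obtain ⟨h1, h2⟩ := hgL (x - c) (abs_le.1 hxB)
      rcases (hf0 x).eq_or_lt with h3 | h3
      · rw [← h3]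
        simp only [zero_mul, zero_add, zero_sub]
        linarith
      · have h4 : Real.log (g (x - c) / f x) ≤ g (x - c) / f x - 1 :=
          Real.log_le_sub_one_of_pos (div_pos h1 h3)
        rw [Real.log_div h1.ne' h3.ne', h2] at h4
        have h5 := mul_le_mul_of_nonneg_left h4 h3.le
        have h6 : f x * (g (x - c) / f x - 1) = g (x - c) - f x := by
          field_simp
        rw [h6] at h5
        linarith
    · have h1 : f x = 0 := by
        by_contra h
        exact hxB (hx h)
      have h2 : g (x - c) = 0 := by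
        rw [hg]
        refine Set.indicator_of_notMem ?_ _
        intro h
        exact hxB (abs_le.2 h)
      rw [h1, h2]
      simp
  have hi1 := hint2 L hLc
  have hfg : Integrable (fun x => f x - g (x - c)) volume := hfi.sub hgc
  have hI := integral_mono_ae (hi1.add hfg) hint hpt
  simp only [Pi.add_apply] at hI
  rw [integral_add hi1 hfg] at hI
  have hI2 : ∫ x, (f x - g (x - c)) = 0 := by
    rw [integral_sub hfi hgc, hf1, hgc1, sub_self]
  have hI3 : ∫ x, f x * L (x - c) = ∫ s, l (s - c) ∂ν - (∫ s, (s - c) ^ 2 ∂ν) / 4 -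
      Real.log (Real.sqrt (2 * Real.pi * 2)) - Real.log Z := by
    rw [heq2 L hLc, hL]
    have j1 := hbound l hl
    have j2 : Integrable (fun s : ℝ => (s - c) ^ 2 / 4) ν :=
      hbound (fun s => s ^ 2 / 4) (by fun_prop)
    have j12 : Integrable (fun s : ℝ => l (s - c) - (s - c) ^ 2 / 4) ν := j1.sub j2
    have j3 : Integrable (fun s : ℝ => l (s - c) - (s - c) ^ 2 / 4 -
      Real.log (Real.sqrt (2 * Real.pi * 2))) ν := j12.sub (integrable_const _)
    rw [integral_sub j3 (integrable_const _), integral_sub j12 (integrable_const _),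
      integral_sub j1 j2, integral_div]
    simp
  rw [hI3, hI2, add_zero] at hI
  exact hI

/-- `E_V log v ≤ log E_V v` -/
theorem vlogv_le {v : ℝ → ℝ} (hv : Measurable v) {K : ℝ} (h0 : ∀ s, 0 ≤ v s) (hK : ∀ s, v s ≤ K)
    (h1 : ∫ s, v s ∂GG = 1) :
    ∫ s, (v s * Real.log (v s) - v s + 1) ∂GG ≤ Real.log (∫ s, v s ^ 2 ∂GG) := by
  have hb : ∀ s, |v s| ≤ K := fun s => by
    rw [abs_of_nonneg (h0 s)]
    exact hK s
  have iv : Integrable v GG := Pool.Agent.Lib.MP_ec2ab1_pr_h25b.integrable_bdd hv hb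
  have hK0 : 0 ≤ K := (h0 0).trans (hK 0)
  have iv2 : Integrable (fun s => v s ^ 2) GG :=
    Pool.Agent.Lib.MP_ec2ab1_pr_h25b.integrable_bdd (C := K ^ 2) (hv.pow_const 2) fun s => by
      rw [abs_of_nonneg (sq_nonneg _)]
      exact pow_le_pow_left₀ (h0 s) (hK s) 2
  obtain ⟨L, hL⟩ := Pool.Agent.Lib.MP_ec2ab1_pr_h25b.fe_bdd K
  have i1 : Integrable (fun s => v s * Real.log (v s) - v s + 1) GG :=
    Pool.Agent.Lib.MP_ec2ab1_pr_h25b.integrable_bdd
      (Pool.Agent.Lib.MP_ec2ab1_pr_h25b.measurable_fe.comp hv) fun s => hL _ (h0 s) (hK s)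
  set C : ℝ := ∫ s, v s ^ 2 ∂GG with hC
  have hC1 : 1 ≤ C := by
    have h2 : 0 ≤ ∫ s, (v s - 1) ^ 2 ∂GG := integral_nonneg fun s => sq_nonneg _
    have h3 : ∀ s, (v s - 1) ^ 2 = v s ^ 2 - 2 * v s + 1 := fun s => by ring
    simp only [h3] at h2
    have i2 : Integrable (fun s => v s ^ 2 - 2 * v s) GG := iv2.sub (iv.const_mul 2)
    rw [integral_add i2 (integrable_const _), integral_sub iv2 (iv.const_mul 2),
      integral_const_mul, h1, ← hC] at h2
    simp at h2
    linarith
  have hC0 : 0 < C := by linarith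
  have hpt : ∀ s, v s * Real.log (v s) - v s + 1 ≤
      (1 / C) * v s ^ 2 + (Real.log C - 2) * v s + 1 := by
    intro s
    rcases (h0 s).eq_or_lt with h | h
    · rw [← h]
      simp
    · have h2 : Real.log (v s / C) ≤ v s / C - 1 := Real.log_le_sub_one_of_pos (div_pos h hC0)
      rw [Real.log_div h.ne' hC0.ne'] at h2
      have h3 := mul_le_mul_of_nonneg_left h2 h.le
      have h4 : v s * (v s / C - 1) = (1 / C) * v s ^ 2 - v s := by
        field_simp
      rw [h4] at h3
      linarith
  have i3 : Integrable (fun s => (1 / C) * v s ^ 2 + (Real.log C - 2) * v s) GG :=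
    (iv2.const_mul _).add (iv.const_mul _)
  have i4 : Integrable (fun s => (1 / C) * v s ^ 2 + (Real.log C - 2) * v s + 1) GG :=
    i3.add (integrable_const _)
  refine (integral_mono i1 i4 hpt).trans (le_of_eq ?_)
  rw [integral_add i3 (integrable_const _), integral_add (iv2.const_mul _) (iv.const_mul _),
    integral_const_mul, integral_const_mul, h1, ← hC]
  simp
  field_simp
  ring

/-- **reduction of the entropy inequality for bounded laws to a certificate** -/
theorem Q1_of_cert {R : ℝ} (hR : 0 < R)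
    (cert : ∀ P : Measure ℝ, IsProbabilityMeasure P → (∀ᵐ x ∂P, |x| ≤ R) → ∫ x, x ∂P = 0 →
      ∫ x, x ^ 2 ∂P = 1 → ∃ l : ℝ → ℝ, Continuous l ∧
        Real.log (∫ s in Set.Icc (-(2 * R)) (2 * R), Real.exp (l s) ∂GG) +
          Real.log (∫ s, vd P s ^ 2 ∂GG) ≤ ∫ s, l s ∂(UU P))
    (μ : Measure ℝ) [IsProbabilityMeasure μ] (hμ : MemLp (fun x : ℝ => x) 2 μ)
    (hvar : variance (fun x : ℝ => x) μ = 1) (hb : ∀ᵐ x ∂μ, |x - ∫ y, y ∂μ| ≤ R)
    (hac : (μ.prod μ).map (fun p : ℝ × ℝ => p.1 + p.2) ≪ volume)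
    (hint : Integrable (fun x : ℝ =>
        (((μ.prod μ).map (fun p : ℝ × ℝ => p.1 + p.2)).rnDeriv volume x).toReal *
          Real.log ((((μ.prod μ).map (fun p : ℝ × ℝ => p.1 + p.2)).rnDeriv volume x).toReal))
        volume) :
    Integrable (fun x : ℝ =>
        (((μ.prod (gaussianReal 0 1)).map (fun p : ℝ × ℝ => p.1 + p.2)).rnDeriv volume x).toReal *
          Real.log ((((μ.prod (gaussianReal 0 1)).map
            (fun p : ℝ × ℝ => p.1 + p.2)).rnDeriv volume x).toReal))
        volume ∧
    -∫ x : ℝ,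
        (((μ.prod μ).map (fun p : ℝ × ℝ => p.1 + p.2)).rnDeriv volume x).toReal *
          Real.log ((((μ.prod μ).map (fun p : ℝ × ℝ => p.1 + p.2)).rnDeriv volume x).toReal)
      ≤
    -∫ x : ℝ,
        (((μ.prod (gaussianReal 0 1)).map (fun p : ℝ × ℝ => p.1 + p.2)).rnDeriv volume x).toReal *
          Real.log ((((μ.prod (gaussianReal 0 1)).map
            (fun p : ℝ × ℝ => p.1 + p.2)).rnDeriv volume x).toReal) := by
  set m : ℝ := ∫ y, y ∂μ with hm
  have hsub : Measurable (fun x : ℝ => x - m) := by fun_prop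
  have hpr : IsProbabilityMeasure (μ.map (fun x => x - m)) :=
    Measure.isProbabilityMeasure_map hsub.aemeasurable
  -- moments
  have hi1 : Integrable (fun x : ℝ => x) μ := hμ.integrable (by norm_num)
  have L0 : MemLp (fun x : ℝ => x) 2 (μ.map (fun x => x - m)) := by
    rw [memLp_map_measure_iff (by fun_prop) hsub.aemeasurable]
    exact hμ.sub (memLp_const m)
  have m1 : ∫ x, x ∂(μ.map (fun x => x - m)) = 0 := by
    rw [integral_map hsub.aemeasurable (by fun_prop), integral_sub hi1 (integrable_const _), ← hm]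
    simp
  have m2 : ∫ x, x ^ 2 ∂(μ.map (fun x => x - m)) = 1 := by
    rw [integral_map hsub.aemeasurable (by fun_prop)]
    rw [variance_eq_integral (by fun_prop)] at hvar
    exact hvar
  have hb' : ∀ᵐ x ∂(μ.map (fun x => x - m)), |x| ≤ R := by
    rw [ae_map_iff hsub.aemeasurable (measurableSet_le (by fun_prop) (by fun_prop))]
    exact hb
  have Lg : MemLp (fun x : ℝ => x) 2 ga := memLp_id_gaussianReal 2
  have g2 : ∫ x, x ^ 2 ∂ga = 1 := by
    have h := variance_id_gaussianReal (μ := 0) (v := 1)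
    rw [variance_eq_integral (by fun_prop)] at h
    simpa [integral_id_gaussianReal] using h
  set P : Measure ℝ := μ.map (fun x => x - m) with hP
  obtain ⟨l, hl, hcert⟩ := cert P hpr hb' m1 m2
  -- the law of `X + Z`
  have hvb : ∀ s, vd P s ≤ Real.sqrt 2 * Real.exp (R ^ 2 / 2) := by
    intro s
    have h1 : ∀ᵐ x ∂P, KK s x ≤ Real.sqrt 2 * Real.exp (R ^ 2 / 2) := by
      filter_upwards [hb'] with x hx
      refine (KK_le_right s x).trans (mul_le_mul_of_nonneg_left (Real.exp_le_exp.2 ?_)
        (Real.sqrt_nonneg 2))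
      have : x ^ 2 ≤ R ^ 2 := sq_le_sq' (abs_le.1 hx).1 (abs_le.1 hx).2
      linarith
    have h2 := integral_mono_ae (integrable_KK_left s) (integrable_const _) h1
    simpa [vd] using h2
  have E2 := ent_GG (measurable_vd (P := P)) (fun s => vd_nonneg s) hvb integral_vd_GG
    (by rw [← VV_eq]; exact second_moment L0 Lg m1 m2 g2)
  have hgb : Measurable (fun s => gaussianPDFReal 0 2 s * vd P s) :=
    (measurable_gaussianPDFReal 0 2).mul measurable_vd
  have hg0 : ga.map (fun x => x - 0) = ga := by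
    simp
  have T2 := ent_shift (ν := (μ.prod (gaussianReal 0 1)).map (fun p : ℝ × ℝ => p.1 + p.2)) hgb
    (fun s => mul_nonneg (gaussianPDFReal_nonneg _ _ _) (vd_nonneg s)) (m + 0)
    (by
      rw [conv_shift μ (gaussianReal 0 1) m 0, hg0, ← GG_withDensity measurable_vd, ← VV_eq]) E2.1
  refine ⟨T2.2.1, ?_⟩
  have hV := vlogv_le (measurable_vd (P := P)) (fun s => vd_nonneg s) hvb integral_vd_GG
  -- the law of `X + Y`
  have hshift : (μ.prod μ).map (fun p : ℝ × ℝ => p.1 + p.2) =
      (UU P).map (fun s => s + (m + m)) := conv_shift μ μ m m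
  have hpU : IsProbabilityMeasure ((μ.prod μ).map (fun p : ℝ × ℝ => p.1 + p.2)) :=
    Measure.isProbabilityMeasure_map (by fun_prop)
  have hadd : Measurable (fun s : ℝ => s + (m + m)) := by fun_prop
  have hR2 : ∀ᵐ s ∂(UU P), |s| ≤ 2 * R := by
    rw [UU, ae_map_iff (by fun_prop) (measurableSet_le (by fun_prop) (by fun_prop))]
    have h1 : ∀ᵐ p : ℝ × ℝ ∂(P.prod P), |p.1| ≤ R :=
      (Measure.quasiMeasurePreserving_fst).ae hb'
    have h2 : ∀ᵐ p : ℝ × ℝ ∂(P.prod P), |p.2| ≤ R :=
      (Measure.quasiMeasurePreserving_snd).ae hb'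
    filter_upwards [h1, h2] with p a b
    have := abs_add_le p.1 p.2
    linarith
  have hsupp : ∀ᵐ s ∂((μ.prod μ).map (fun p : ℝ × ℝ => p.1 + p.2)), |s - (m + m)| ≤ 2 * R := by
    rw [hshift, ae_map_iff hadd.aemeasurable (measurableSet_le (by fun_prop) (by fun_prop))]
    filter_upwards [hR2] with s hs
    rwa [add_sub_cancel_right]
  have hU := ent_U_ge (ν := (μ.prod μ).map (fun p : ℝ × ℝ => p.1 + p.2)) hac hint
    (B := 2 * R) (c := m + m) (by positivity) hsupp hl
  have hme : MeasurableEmbedding (fun s : ℝ => s + (m + m)) := measurableEmbedding_addRight _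
  have e1 : ∫ s, l (s - (m + m)) ∂((μ.prod μ).map (fun p : ℝ × ℝ => p.1 + p.2)) =
      ∫ s, l s ∂(UU P) := by
    rw [hshift, hme.integral_map]
    simp only [add_sub_cancel_right]
  have e2 : ∫ s, (s - (m + m)) ^ 2 ∂((μ.prod μ).map (fun p : ℝ × ℝ => p.1 + p.2)) = 2 := by
    rw [hshift, hme.integral_map]
    simp only [add_sub_cancel_right]
    exact second_moment L0 L0 m1 m2 m2
  rw [e1, e2] at hU
  rw [T2.2.2, E2.2]
  linarith

end Pool.Agent.Lib.MP_ec2ab1_pr_h45
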