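import Mathlib
import Pool.Agent.Lib.MP_ec2ab1_pr_h45.Dv
import Pool.Agent.Lib.MP_ec2ab1_pr_h82.Cert
import Pool.Agent.Lib.MP_ec2ab1_pr_h82.Cert5

set_option autoImplicit false

/-!
# The entropy inequality for laws with `|X - E X| ≤ 2 σ`
-/

namespace Pool.Agent.Lib.MP_ec2ab1_pr_h45

open MeasureTheory ProbabilityTheory
open scoped NNReal ENNReal
open Pool.Agent.Lib.MP_ec2ab1_pr_h25b (ga et GG ga_symm GG_eq ent_GG ent_shift conv_shift
  GG_withDensity second_moment)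
open PoolAgent.H82R2 (ell EU BE box3 box4 box5 box6 box7 k8_le main_ineq)

private theorem he2 (x : ℝ) : he 2 x = x ^ 2 - 1 := by
  rw [he_add_two]; simp; ring
private theorem he3 (x : ℝ) : he 3 x = x ^ 3 - 3 * x := by
  rw [he_add_two, he2]; simp; ring
private theorem he4 (x : ℝ) : he 4 x = x ^ 4 - 6 * x ^ 2 + 3 := by
  rw [he_add_two, he3, he2]; norm_num; ring
private theorem he5 (x : ℝ) : he 5 x = x ^ 5 - 10 * x ^ 3 + 15 * x := by
  rw [he_add_two, he4, he3]; norm_num; ring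
private theorem he6 (x : ℝ) : he 6 x = x ^ 6 - 15 * x ^ 4 + 45 * x ^ 2 - 15 := by
  rw [he_add_two, he5, he4]; norm_num; ring
private theorem he7 (x : ℝ) : he 7 x = x ^ 7 - 21 * x ^ 5 + 105 * x ^ 3 - 105 * x := by
  rw [he_add_two, he6, he5]; norm_num; ring

private theorem kd7 (x : ℝ) : kd 7 x = 2 / Real.sqrt 3 * Real.exp (x ^ 2 / 3) -
      (1 + x ^ 2 / 2 + (x ^ 2 - 1) ^ 2 / 8 +
      (x ^ 3 - 3 * x) ^ 2 / 48 + (x ^ 4 - 6 * x ^ 2 + 3) ^ 2 / 384 +
      (x ^ 5 - 10 * x ^ 3 + 15 * x) ^ 2 / 3840 +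
      (x ^ 6 - 15 * x ^ 4 + 45 * x ^ 2 - 15) ^ 2 / 46080 +
      (x ^ 7 - 21 * x ^ 5 + 105 * x ^ 3 - 105 * x) ^ 2 / 645120) := by
  unfold kd
  simp only [Finset.sum_range_succ, Finset.sum_range_zero, he_zero, he_one, he2, he3, he4, he5,
    he6, he7, nn, Nat.factorial]
  norm_num

private theorem set_GG {f : ℝ → ℝ} {a b : ℝ} (hab : a ≤ b) :
    ∫ s in Set.Icc a b, Real.exp (f s) ∂GG =
      1 / Real.sqrt (4 * Real.pi) * ∫ s in a..b, Real.exp (f s) * Real.exp (-s ^ 2 / 4) := by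
  rw [← integral_indicator measurableSet_Icc]
  change ∫ s, (Set.Icc a b).indicator (fun s => Real.exp (f s)) s ∂(gaussianReal 0 2) = _
  rw [integral_gaussianReal_eq_integral_smul (by norm_num), intervalIntegral.integral_of_le hab,
    ← integral_Icc_eq_integral_Ioc, ← integral_indicator measurableSet_Icc,
    ← integral_const_mul]
  refine integral_congr_ae (Filter.Eventually.of_forall fun s => ?_)
  by_cases hs : s ∈ Set.Icc a b
  · simp only [Set.indicator_of_mem hs, gaussianPDFReal, smul_eq_mul]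
    have e1 : (2 * Real.pi * ((2 : ℝ≥0) : ℝ)) = 4 * Real.pi := by push_cast; ring
    have e2 : -(s - 0) ^ 2 / (2 * ((2 : ℝ≥0) : ℝ)) = -s ^ 2 / 4 := by push_cast; ring
    rw [e1, e2]
    ring
  · simp only [Set.indicator_of_notMem hs, smul_zero, mul_zero]

section

variable {P : Measure ℝ} [IsProbabilityMeasure P]

/-- the certificate for `R = 2` -/
theorem cert_two (hb : ∀ᵐ x ∂P, |x| ≤ 2) (h1 : ∫ x, x ∂P = 0) (h2 : ∫ x, x ^ 2 ∂P = 1) :
    ∃ l : ℝ → ℝ, Continuous l ∧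
        Real.log (∫ s in Set.Icc (-(2 * 2) : ℝ) (2 * 2), Real.exp (l s) ∂GG) +
          Real.log (∫ s, vd P s ^ 2 ∂GG) ≤ ∫ s, l s ∂(UU P) := by
  have hm : AllMo P := allMo_of_bdd hb
  have hvb : ∀ s, vd P s ≤ Real.sqrt 2 * Real.exp (2 ^ 2 / 2) := by
    intro s
    have h1 : ∀ᵐ x ∂P, KK s x ≤ Real.sqrt 2 * Real.exp (2 ^ 2 / 2) := by
      filter_upwards [hb] with x hx
      refine (KK_le_right s x).trans (mul_le_mul_of_nonneg_left (Real.exp_le_exp.2 ?_)
        (Real.sqrt_nonneg 2))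
      have : x ^ 2 ≤ 2 ^ 2 := sq_le_sq' (abs_le.1 hx).1 (abs_le.1 hx).2
      linarith
    have h2 := integral_mono_ae (integrable_KK_left s) (integrable_const _) h1
    simpa [vd] using h2
  have m0 : mo P 0 = 1 := mo_zero
  have m1 : mo P 1 = 0 := by unfold mo; simpa using h1
  have m2 : mo P 2 = 1 := h2
  -- Hermite moments
  have e3 : ∫ x, he 3 x ∂P = mo P 3 := by
    rw [integral_of_ev hm [0, -3, 0, 1] (fun s => by rw [he3]; simp only [ev]; ring)]
    simp only [mev, m0, m1, m2]; ring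
  have e4 : ∫ x, he 4 x ∂P = mo P 4 - 3 := by
    rw [integral_of_ev hm [3, 0, -6, 0, 1] (fun s => by rw [he4]; simp only [ev]; ring)]
    simp only [mev, m0, m1, m2]; ring
  have e5 : ∫ x, he 5 x ∂P = mo P 5 - 10 * mo P 3 := by
    rw [integral_of_ev hm [0, 15, 0, -10, 0, 1] (fun s => by rw [he5]; simp only [ev]; ring)]
    simp only [mev, m0, m1, m2]; ring
  have e6 : ∫ x, he 6 x ∂P = mo P 6 - 15 * mo P 4 + 30 := by
    rw [integral_of_ev hm [-15, 0, 45, 0, -15, 0, 1]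
      (fun s => by rw [he6]; simp only [ev]; ring)]
    simp only [mev, m0, m1, m2]; ring
  have e7 : ∫ x, he 7 x ∂P = mo P 7 - 21 * mo P 5 + 105 * mo P 3 := by
    rw [integral_of_ev hm [0, -105, 0, 105, 0, -21, 0, 1]
      (fun s => by rw [he7]; simp only [ev]; ring)]
    simp only [mev, m0, m1, m2]; ring
  have e2 : ∫ x, he 2 x ∂P = 0 := by
    rw [integral_of_ev hm [-1, 0, 1] (fun s => by rw [he2]; simp only [ev]; ring)]
    simp only [mev, m0, m1, m2]; ring
  have e1 : ∫ x, he 1 x ∂P = 0 := by simpa using h1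
  have e0 : ∫ x, he 0 x ∂P = 1 := by simp
  have b3 := box3 hb h1 h2
  obtain ⟨b4, b4'⟩ := box4 hb h1 h2
  have b5 := box5 hb h1 h2
  obtain ⟨b6, b6'⟩ := box6 hb h1 h2
  have b7 := box7 hb h1 h2
  simp only [← he3, ← he4, ← he5, ← he6, ← he7] at b3 b4 b4' b5 b6 b6' b7
  rw [e3] at b3
  rw [e4] at b4 b4'
  rw [e5] at b5
  rw [e6] at b6 b6'
  rw [e7] at b7
  -- chi-square
  have hchi := chi_le (P := P) hb 7 (w := fun x => 19 / 500 + 71 / 5000 * x ^ 2) (by fun_prop)
    (fun x _ => by positivity) (fun x hx => by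
      rw [kd7]; exact k8_le hx)
  have ew : ∫ x, (19 / 500 + 71 / 5000 * x ^ 2 : ℝ) ∂P = 261 / 5000 := by
    rw [integral_of_ev hm [19 / 500, 0, 71 / 5000] (fun s => by simp only [ev]; ring)]
    simp only [mev, m0, m1, m2]; norm_num
  simp only [Finset.sum_range_succ, Finset.sum_range_zero, e0, e1, e2, e3, e4, e5, e6, e7, ew, nn,
    Nat.factorial] at hchi
  -- the moments of `U`
  generalize hc3 : mo P 3 = c3 at *
  generalize hc4 : mo P 4 = c4 at *
  generalize hc5 : mo P 5 = c5 at *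
  generalize hc6 : mo P 6 = c6 at *
  generalize hc7 : mo P 7 = c7 at *
  set d4 : ℝ := c4 - 3 with hd4
  set d5 : ℝ := c5 - 10 * c3 with hd5
  set d6 : ℝ := c6 - 15 * c4 + 30 with hd6
  set d7 : ℝ := c7 - 21 * c5 + 105 * c3 with hd7
  have eU : ∫ s, ell c3 d4 d5 d6 d7 s ∂(UU P) =
      2 * c3 ^ 2 / 48 + 2 * d4 ^ 2 / 384 + 2 * d5 ^ 2 / 3840 +
        d6 * (2 * d6 + 20 * c3 ^ 2) / 61440 + d7 * (2 * d7 + 70 * c3 * d4) / 1075200 := by
    rw [integral_of_ev (allMo_UU hm)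
      [12 * d4 / 384 - 120 * d6 / 61440, -6 * c3 / 48 + 60 * d5 / 3840 - 840 * d7 / 1075200,
       -12 * d4 / 384 + 180 * d6 / 61440, c3 / 48 - 20 * d5 / 3840 + 420 * d7 / 1075200,
       d4 / 384 - 30 * d6 / 61440, d5 / 3840 - 42 * d7 / 1075200, d6 / 61440, d7 / 1075200]
      (fun s => by simp only [ev, ell]; ring)]
    simp only [mev, mo_UU hm, Finset.sum_range_succ, Finset.sum_range_zero, Nat.choose]
    norm_num
    rw [hc3, hc4, hc5, hc6, hc7, m0, m1, m2, hd7, hd6, hd5, hd4]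
    ring
  have hcont : Continuous (ell c3 d4 d5 d6 d7) := by unfold ell; fun_prop
  refine ⟨ell c3 d4 d5 d6 d7, hcont, ?_⟩
  have hmain := main_ineq b3 b4 b4' b5 b6 b6' b7
  rw [div_eq_inv_mul, ← one_div, ← set_GG (by norm_num : (-4 : ℝ) ≤ 4)] at hmain
  unfold EU BE at hmain
  rw [eU]
  have hA : 0 < ∫ s in Set.Icc (-4 : ℝ) 4, Real.exp (ell c3 d4 d5 d6 d7 s) ∂GG := by
    rw [set_GG (by norm_num : (-4 : ℝ) ≤ 4)]
    refine mul_pos (by positivity) ?_
    refine intervalIntegral.intervalIntegral_pos_of_pos_on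
      ((by fun_prop : Continuous fun s : ℝ =>
        Real.exp (ell c3 d4 d5 d6 d7 s) * Real.exp (-s ^ 2 / 4)).intervalIntegrable _ _)
      (fun x _ => by positivity) (by norm_num)
  have hB : 0 < ∫ s, vd P s ^ 2 ∂GG := by
    have i2 : Integrable (fun s => vd P s ^ 2) GG := by
      have := integrable_bd_pow (P := P) (M := Real.sqrt 2 * Real.exp (2 ^ 2 / 2)) hvb 2 (Q := GG)
      have e : (fun s => vd P s ^ 2) = fun s => bd P s ^ 2 + (2 * vd P s - 1) := by
        funext s; unfold bd; ring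
      rw [e]
      exact this.add ((integrable_vd_GG.const_mul 2).sub (integrable_const _))
    have h : ∫ s, (2 * vd P s - 1) ∂GG ≤ ∫ s, vd P s ^ 2 ∂GG := by
      refine integral_mono ((integrable_vd_GG.const_mul 2).sub (integrable_const _)) i2
        (fun s => ?_)
      have h9 : 0 ≤ (vd P s - 1) ^ 2 := sq_nonneg _
      show 2 * vd P s - 1 ≤ vd P s ^ 2
      linarith [h9]
    rw [integral_sub (integrable_vd_GG.const_mul 2) (integrable_const _),
      integral_const_mul, integral_vd_GG] at h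
    simp at h
    linarith
  have l1 := Real.log_le_sub_one_of_pos hA
  have l2 := Real.log_le_sub_one_of_pos hB
  norm_num at *
  linarith

end

end Pool.Agent.Lib.MP_ec2ab1_pr_h45
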